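import Mathlib

/-! Differences of a large multiplicative subgroup of a finite field cover the field
(second moment over the affine group). -/

set_option autoImplicit false

namespace Pool.Agent.helper53.HF

open Finset

section
variable {K : Type*} [Field K] [Fintype K] [DecidableEq K]

theorem pair_sum (F : K → ℚ) (x x' : K) (h : x ≠ x') :
    ∑ p ∈ (univ : Finset (K × K)).filter (fun p => p.1 ≠ 0),
      F (p.1 * x + p.2) * F (p.1 * x' + p.2) =
    ∑ p ∈ (univ : Finset (K × K)).filter (fun p => p.1 ≠ p.2), F p.1 * F p.2 := by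
  have hd : x - x' ≠ 0 := sub_ne_zero.2 h
  refine Finset.sum_nbij' (fun p => (p.1 * x + p.2, p.1 * x' + p.2))
    (fun p => ((p.1 - p.2) / (x - x'), p.1 - (p.1 - p.2) / (x - x') * x)) ?_ ?_ ?_ ?_ ?_
  · rintro ⟨a, b⟩ hp
    simp only [mem_filter, mem_univ, true_and, ne_eq] at hp ⊢
    intro h1
    have : a * (x - x') = 0 := by linear_combination h1
    rcases mul_eq_zero.1 this with h2 | h2
    · exact hp h2
    · exact hd h2
  · rintro ⟨y, y'⟩ hp
    simp only [mem_filter, mem_univ, true_and, ne_eq] at hp ⊢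
    intro h1
    rcases div_eq_zero_iff.1 h1 with h2 | h2
    · exact hp (sub_eq_zero.1 h2)
    · exact hd h2
  · rintro ⟨a, b⟩ hp
    simp only [Prod.mk.injEq]
    constructor
    · field_simp
      ring
    · field_simp
      ring
  · rintro ⟨y, y'⟩ hp
    simp only [Prod.mk.injEq]
    constructor
    · ring
    · field_simp
      ring
  · rintro ⟨a, b⟩ hp
    rfl

omit [Field K] in
theorem diag_sum (F : K → ℚ) :
    ∑ p ∈ (univ : Finset (K × K)).filter (fun p => p.1 ≠ p.2), F p.1 * F p.2 =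
      (∑ x, F x) ^ 2 - ∑ x, F x ^ 2 := by
  have h1 : ∑ p : K × K, F p.1 * F p.2 = (∑ x, F x) ^ 2 := by
    rw [Fintype.sum_prod_type, sq, Finset.sum_mul_sum]
  have h2 : ∑ p ∈ (univ : Finset (K × K)).filter (fun p => ¬ p.1 ≠ p.2), F p.1 * F p.2 =
      ∑ x, F x ^ 2 := by
    refine Finset.sum_nbij' (fun p => p.1) (fun x => (x, x)) ?_ ?_ ?_ ?_ ?_
    · intro p _; exact mem_univ _
    · intro x _; simp
    · rintro ⟨a, b⟩ hp
      simp only [ne_eq, not_not, mem_filter, mem_univ, true_and] at hp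
      simp [hp]
    · intro x _; rfl
    · rintro ⟨a, b⟩ hp
      simp only [ne_eq, not_not, mem_filter, mem_univ, true_and] at hp
      simp [hp, sq]
  rw [← h1, ← h2, ← Finset.sum_filter_add_sum_filter_not univ (fun p : K × K => p.1 ≠ p.2)]
  ring

theorem first_sum (F : K → ℚ) (x : K) :
    ∑ p ∈ (univ : Finset (K × K)).filter (fun p => p.1 ≠ 0), F (p.1 * x + p.2) =
      ((Fintype.card K : ℚ) - 1) * ∑ y, F y := by
  have h : (univ : Finset (K × K)).filter (fun p => p.1 ≠ 0) =
      ((univ : Finset K).filter (fun a => a ≠ 0)) ×ˢ (univ : Finset K) := by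
    ext ⟨a, b⟩
    simp
  rw [h, Finset.sum_product]
  have h2 : ∀ a : K, ∑ b : K, F (a * x + b) = ∑ y, F y := by
    intro a
    exact Fintype.sum_equiv (Equiv.addLeft (a * x)) _ _ (fun b => rfl)
  simp only [h2]
  rw [Finset.sum_const, nsmul_eq_mul]
  congr 1
  have h3 : (univ : Finset K).filter (fun a => a ≠ 0) = univ.erase 0 := by
    ext a; simp
  rw [h3, Finset.card_erase_of_mem (mem_univ _), Finset.card_univ,
    Nat.cast_sub Fintype.card_pos, Nat.cast_one]

/-- The key estimate: if the set `S` is closed under scaling by its elements, of size `n`, and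
`x - c` avoids `S` for `x` in `S`, then `n ^ 4 < q ^ 3`. -/
theorem key_estimate (S : Finset K) (hS0 : ∀ x ∈ S, x ≠ 0) (hne : S.Nonempty)
    (hmul : ∀ x ∈ S, ∀ y ∈ S, x * y⁻¹ ∈ S) (hmul' : ∀ x ∈ S, ∀ y ∈ S, x * y ∈ S)
    (c : K) (hc : c ≠ 0) (havoid : ∀ x ∈ S, x - c ∉ S) :
    S.card ^ 4 < (Fintype.card K) ^ 3 := by
  classical
  set F : K → ℚ := fun x => if x ∈ S then 1 else 0 with hF
  set n : ℚ := (S.card : ℚ) with hn
  set q : ℚ := (Fintype.card K : ℚ) with hq
  have hqpos : 0 < q := by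
    rw [hq]; exact_mod_cast Fintype.card_pos
  have hnpos : 0 < n := by
    rw [hn]; exact_mod_cast hne.card_pos
  have hnq : n ≤ q := by
    rw [hn, hq]; exact_mod_cast Finset.card_le_univ S
  have hsumF : ∑ x, F x = n := by
    simp [hF, hn]
  have hsumF2 : ∑ x, F x ^ 2 = n := by
    rw [← hsumF]
    apply Finset.sum_congr rfl
    intro x _
    simp only [hF]
    split_ifs <;> simp
  set A : Finset (K × K) := (univ : Finset (K × K)).filter (fun p => p.1 ≠ 0) with hA
  set N : K × K → ℚ := fun p => ∑ x ∈ S, F (p.1 * x + p.2) with hN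
  have hsumN : ∑ p ∈ A, N p = n * ((q - 1) * n) := by
    simp only [hN]
    rw [Finset.sum_comm]
    simp only [hA, first_sum, hsumF]
    rw [Finset.sum_const, nsmul_eq_mul]
  have hsumN2 : ∑ p ∈ A, N p ^ 2 = n * ((q - 1) * n) + n * (n - 1) * (n ^ 2 - n) := by
    have h1 : ∑ p ∈ A, N p ^ 2 =
        ∑ x ∈ S, ∑ x' ∈ S, ∑ p ∈ A, F (p.1 * x + p.2) * F (p.1 * x' + p.2) := by
      have : ∀ p ∈ A, N p ^ 2 =
          ∑ x ∈ S, ∑ x' ∈ S, F (p.1 * x + p.2) * F (p.1 * x' + p.2) := by
        intro p _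
        simp only [hN]
        rw [sq, Finset.sum_mul_sum]
      rw [Finset.sum_congr rfl this, Finset.sum_comm]
      apply Finset.sum_congr rfl
      intro x _
      rw [Finset.sum_comm]
    rw [h1]
    have h2 : ∀ x ∈ S, ∑ x' ∈ S, ∑ p ∈ A, F (p.1 * x + p.2) * F (p.1 * x' + p.2) =
        (q - 1) * n + (n - 1) * (n ^ 2 - n) := by
      intro x hx
      rw [← Finset.add_sum_erase S _ hx]
      congr 1
      · have h3 : ∀ p ∈ A, F (p.1 * x + p.2) * F (p.1 * x + p.2) = F (p.1 * x + p.2) := by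
          intro p _
          simp only [hF]
          split_ifs <;> simp
        rw [Finset.sum_congr rfl h3]
        simp only [hA, first_sum, hsumF]
        rfl
      · have h3 : ∀ x' ∈ S.erase x, ∑ p ∈ A, F (p.1 * x + p.2) * F (p.1 * x' + p.2) =
            n ^ 2 - n := by
          intro x' hx'
          have hne' : x ≠ x' := (Finset.ne_of_mem_erase hx').symm
          simp only [hA]
          rw [pair_sum F x x' hne', diag_sum, hsumF, hsumF2]
        rw [Finset.sum_congr rfl h3, Finset.sum_const, nsmul_eq_mul,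
          Finset.card_erase_of_mem hx, Nat.cast_sub hne.card_pos, Nat.cast_one]
    rw [Finset.sum_congr rfl h2, Finset.sum_const, nsmul_eq_mul]
    ring
  -- variance
  set μ : ℚ := n ^ 2 / q with hμ
  have hcardA : (A.card : ℚ) = (q - 1) * q := by
    have h := first_sum (K := K) (fun _ => (1 : ℚ)) 0
    simp only [Finset.sum_const, nsmul_eq_mul, mul_one, Finset.card_univ] at h
    exact h
  have hvar : ∑ p ∈ A, (N p - μ) ^ 2 =
      n * ((q - 1) * n) + n * (n - 1) * (n ^ 2 - n) - 2 * μ * (n * ((q - 1) * n)) +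
        μ ^ 2 * ((q - 1) * q) := by
    have h1 : ∀ p ∈ A, (N p - μ) ^ 2 = N p ^ 2 - 2 * μ * N p + μ ^ 2 := by
      intro p _; ring
    rw [Finset.sum_congr rfl h1, Finset.sum_add_distrib, Finset.sum_sub_distrib, hsumN2,
      ← Finset.mul_sum, hsumN, Finset.sum_const, nsmul_eq_mul, hcardA]
    ring
  -- zeros
  have hzero : ∀ s ∈ S, ∀ t ∈ S, N (s, -(c * t)) = 0 := by
    intro s hs t ht
    simp only [hN]
    apply Finset.sum_eq_zero
    intro x hx
    simp only [hF]
    rw [if_neg]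
    intro hmem
    have h1 : (s * x + -(c * t)) * t⁻¹ ∈ S := hmul _ hmem _ ht
    have h2 : s * x * t⁻¹ ∈ S := hmul _ (hmul' _ hs _ hx) _ ht
    apply havoid _ h2
    have ht0 : t ≠ 0 := hS0 t ht
    have : (s * x + -(c * t)) * t⁻¹ = s * x * t⁻¹ - c := by
      field_simp
      ring
    rwa [this] at h1
  have hlow : n ^ 2 * μ ^ 2 ≤ ∑ p ∈ A, (N p - μ) ^ 2 := by
    set B : Finset (K × K) := (S ×ˢ S).image (fun p => (p.1, -(c * p.2))) with hB
    have hBA : B ⊆ A := by
      intro p hp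
      rw [hB, Finset.mem_image] at hp
      obtain ⟨⟨s, t⟩, hst, rfl⟩ := hp
      rw [Finset.mem_product] at hst
      simp only [hA, mem_filter, mem_univ, true_and]
      exact hS0 s hst.1
    have hBcard : (B.card : ℚ) = n ^ 2 := by
      rw [hB, Finset.card_image_of_injective, Finset.card_product]
      · push_cast; rw [← hn]; ring
      · rintro ⟨s, t⟩ ⟨s', t'⟩ h
        simp only [Prod.mk.injEq, neg_inj] at h
        obtain ⟨h1, h2⟩ := h
        rw [h1, mul_left_cancel₀ hc h2]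
    calc n ^ 2 * μ ^ 2 = ∑ p ∈ B, μ ^ 2 := by
          rw [Finset.sum_const, nsmul_eq_mul, hBcard]
      _ = ∑ p ∈ B, (N p - μ) ^ 2 := by
          apply Finset.sum_congr rfl
          intro p hp
          rw [hB, Finset.mem_image] at hp
          obtain ⟨⟨s, t⟩, hst, rfl⟩ := hp
          rw [Finset.mem_product] at hst
          rw [hzero s hst.1 t hst.2]
          ring
      _ ≤ ∑ p ∈ A, (N p - μ) ^ 2 :=
          Finset.sum_le_sum_of_subset_of_nonneg hBA (fun p _ _ => sq_nonneg _)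
  rw [hvar] at hlow
  have hfin : n ^ 4 < q ^ 3 := by
    have hμq : μ * q = n ^ 2 := by
      rw [hμ]; field_simp
    -- multiply out by q ^ 2
    have h1 : n ^ 2 * (μ * q) ^ 2 ≤ n ^ 2 * ((q - 2 * n) * q ^ 2 + n ^ 2 * q) := by
      have h2 := mul_le_mul_of_nonneg_right hlow (sq_nonneg q)
      have h3 : (n * ((q - 1) * n) + n * (n - 1) * (n ^ 2 - n) - 2 * μ * (n * ((q - 1) * n)) +
        μ ^ 2 * ((q - 1) * q)) * q ^ 2 = n ^ 2 * ((q - 2 * n) * q ^ 2 + n ^ 2 * q) := by
        have : (n * ((q - 1) * n) + n * (n - 1) * (n ^ 2 - n) - 2 * μ * (n * ((q - 1) * n)) +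
          μ ^ 2 * ((q - 1) * q)) * q ^ 2 =
          (n * ((q - 1) * n) + n * (n - 1) * (n ^ 2 - n)) * q ^ 2 -
            2 * (μ * q) * (n * ((q - 1) * n)) * q + (μ * q) ^ 2 * ((q - 1) * q) := by ring
        rw [this, hμq]
        ring
      rw [h3] at h2
      calc n ^ 2 * (μ * q) ^ 2 = n ^ 2 * μ ^ 2 * q ^ 2 := by ring
        _ ≤ _ := h2
    rw [hμq] at h1
    have hn2 : 0 < n ^ 2 := by positivity
    have h4 : (n ^ 2) ^ 2 ≤ (q - 2 * n) * q ^ 2 + n ^ 2 * q := le_of_mul_le_mul_left h1 hn2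
    have h5 : n ^ 2 * q ≤ n * q * q := by nlinarith [mul_pos hnpos hqpos]
    have h6 : 0 < n * q ^ 2 := by positivity
    nlinarith
  have : ((S.card ^ 4 : ℕ) : ℚ) < ((Fintype.card K ^ 3 : ℕ) : ℚ) := by
    push_cast
    exact hfin
  exact_mod_cast this

end

theorem diff_finite {K : Type*} [Field K] [Finite K] (G : Subgroup Kˣ)
    (hG : (Nat.card K) ^ 3 ≤ (Nat.card G) ^ 4) (t : K) :
    ∃ g ∈ G, ∃ h ∈ G, t = (g : K) - (h : K) := by
  classical
  have : Fintype K := Fintype.ofFinite K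
  rcases eq_or_ne t 0 with rfl | ht
  · exact ⟨1, G.one_mem, 1, G.one_mem, by simp⟩
  by_contra hcon
  push Not at hcon
  set S : Finset K := (univ : Finset K).filter (fun x => ∃ g ∈ G, (g : K) = x) with hS
  have hmemS : ∀ x, x ∈ S ↔ ∃ g ∈ G, (g : K) = x := by
    intro x; simp [hS]
  have hcard : S.card = Nat.card G := by
    have e : G ≃ S := {
      toFun := fun g => ⟨((g : Kˣ) : K), (hmemS _).2 ⟨g, g.2, rfl⟩⟩
      invFun := fun x => ⟨Classical.choose ((hmemS _).1 x.2),
        (Classical.choose_spec ((hmemS _).1 x.2)).1⟩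
      left_inv := by
        intro g
        apply Subtype.ext
        apply Units.ext
        exact (Classical.choose_spec ((hmemS ((g : Kˣ) : K)).1
          ((hmemS _).2 ⟨g, g.2, rfl⟩))).2
      right_inv := by
        intro x
        apply Subtype.ext
        exact (Classical.choose_spec ((hmemS _).1 x.2)).2 }
    rw [Nat.card_congr e]
    simp
  have h := key_estimate S (by
      intro x hx
      obtain ⟨g, -, rfl⟩ := (hmemS _).1 hx
      exact g.ne_zero)
    ⟨1, (hmemS _).2 ⟨1, G.one_mem, rfl⟩⟩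
    (by
      intro x hx y hy
      obtain ⟨g, hg, rfl⟩ := (hmemS _).1 hx
      obtain ⟨h, hh, rfl⟩ := (hmemS _).1 hy
      exact (hmemS _).2 ⟨g * h⁻¹, G.mul_mem hg (G.inv_mem hh), by simp⟩)
    (by
      intro x hx y hy
      obtain ⟨g, hg, rfl⟩ := (hmemS _).1 hx
      obtain ⟨h, hh, rfl⟩ := (hmemS _).1 hy
      exact (hmemS _).2 ⟨g * h, G.mul_mem hg hh, by simp⟩)
    t ht
    (by
      intro x hx hx'
      obtain ⟨g, hg, rfl⟩ := (hmemS _).1 hx
      obtain ⟨h, hh, hh'⟩ := (hmemS _).1 hx'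
      exact hcon g hg h hh (by rw [hh']; ring))
  rw [hcard, ← Nat.card_eq_fintype_card] at h
  omega

end Pool.Agent.helper53.HF
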