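import Mathlib

/-! Differences of a multiplicative subgroup with finitely many cosets in an infinite field
cover the whole field. -/

set_option autoImplicit false

namespace Pool.Agent.helper53.HF

theorem exists_weights {K : Type*} [Field K] [Infinite K] {ι : Type*} [DecidableEq ι]
    (s : Finset ι) :
    ∃ w : ι → K, ∀ t : Finset ι, t ⊆ s → t.Nonempty → ∑ i ∈ t, w i ≠ 0 := by
  classical
  induction s using Finset.induction_on with
  | empty =>
    refine ⟨fun _ => 0, fun t ht hne => ?_⟩
    rw [Finset.subset_empty] at ht
    exact absurd hne (by simp [ht])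
  | insert a s ha ih =>
    obtain ⟨w, hw⟩ := ih
    obtain ⟨x, hx⟩ := Infinite.exists_notMem_finset
      (s.powerset.image (fun t => - ∑ i ∈ t, w i))
    refine ⟨Function.update w a x, fun t ht hne => ?_⟩
    by_cases hat : a ∈ t
    · have h1 : ∑ i ∈ t, Function.update w a x i = x + ∑ i ∈ t.erase a, w i := by
        rw [← Finset.add_sum_erase t _ hat]
        congr 1
        · simp
        · apply Finset.sum_congr rfl
          intro i hi
          rw [Function.update_of_ne (Finset.ne_of_mem_erase hi)]
      rw [h1]
      intro h0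
      apply hx
      rw [Finset.mem_image]
      refine ⟨t.erase a, ?_, ?_⟩
      · rw [Finset.mem_powerset]
        intro i hi
        have := ht (Finset.mem_of_mem_erase hi)
        rw [Finset.mem_insert] at this
        rcases this with h | h
        · exact absurd h (Finset.ne_of_mem_erase hi)
        · exact h
      · linear_combination -h0
    · have h1 : ∑ i ∈ t, Function.update w a x i = ∑ i ∈ t, w i := by
        apply Finset.sum_congr rfl
        intro i hi
        rw [Function.update_of_ne (by rintro rfl; exact hat hi)]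
      rw [h1]
      apply hw t _ hne
      intro i hi
      have := ht hi
      rw [Finset.mem_insert] at this
      rcases this with h | h
      · exact absurd hi (by rw [h]; exact hat)
      · exact h

theorem diff_infinite {K : Type*} [Field K] [Infinite K] (G : Subgroup Kˣ) {n : ℕ}
    (f : K → Fin n) (hs : Function.Surjective f)
    (hf : ∀ x y : K, f x = f y ↔ ∃ g ∈ G, y = x * (g : K)) (t : K) :
    ∃ g ∈ G, ∃ h ∈ G, t = (g : K) - (h : K) := by
  classical
  obtain ⟨σ, hσ⟩ := hs.hasRightInverse
  have hσ0 : σ (f 0) = 0 := by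
    have h := (hf (σ (f 0)) 0).1 (hσ (f 0))
    obtain ⟨g, -, hg⟩ := h
    rcases mul_eq_zero.1 hg.symm with h | h
    · exact h
    · exact absurd h g.ne_zero
  obtain ⟨ι, _, hι⟩ := Combinatorics.Line.exists_mono_in_high_dimension (Fin n) (Fin n)
  obtain ⟨w, hw⟩ := exists_weights (K := K) (Finset.univ : Finset ι)
  obtain ⟨l, c, hl⟩ := hι (fun v => f (∑ i, w i * σ (v i)))
  set act : Finset ι := Finset.univ.filter (fun i => l.idxFun i = none) with hact
  have hactne : act.Nonempty := by
    obtain ⟨i, hi⟩ := l.proper
    exact ⟨i, by simp [hact, hi]⟩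
  set W : K := ∑ i ∈ act, w i with hW
  have hW0 : W ≠ 0 := hw act (Finset.subset_univ _) hactne
  set b : K := ∑ i ∈ Finset.univ.filter (fun i => ¬ l.idxFun i = none),
    w i * σ ((l.idxFun i).getD (f 0)) with hb
  have hsum : ∀ z : Fin n, ∑ i, w i * σ (l z i) = W * σ z + b := by
    intro z
    rw [← Finset.sum_filter_add_sum_filter_not Finset.univ (fun i => l.idxFun i = none)]
    congr 1
    · rw [hW, Finset.sum_mul]
      apply Finset.sum_congr rfl
      intro i hi
      have : l.idxFun i = none := (Finset.mem_filter.1 hi).2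
      simp [this]
    · rw [hb]
      apply Finset.sum_congr rfl
      intro i hi
      have : ¬ l.idxFun i = none := (Finset.mem_filter.1 hi).2
      obtain ⟨a, ha⟩ := Option.ne_none_iff_exists'.1 this
      simp [ha]
  have hcol : ∀ z : Fin n, f (W * σ z + b) = c := by
    intro z
    have := hl z
    simp only [hsum] at this
    exact this
  have hb' : f b = c := by
    have := hcol (f 0)
    rwa [hσ0, mul_zero, zero_add] at this
  have hb0 : b ≠ 0 := by
    intro hb0
    have h1 := hcol (f 1)
    rw [← hb', hb0, add_zero] at h1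
    obtain ⟨g, -, hg⟩ := (hf _ _).1 h1
    rcases mul_eq_zero.1 hg.symm with h | h
    · rcases mul_eq_zero.1 h with h | h
      · exact hW0 h
      · have h2 : f (σ (f 1)) = f 1 := hσ (f 1)
        rw [h] at h2
        obtain ⟨g', -, hg'⟩ := (hf _ _).1 h2
        rw [zero_mul] at hg'
        exact one_ne_zero hg'
    · exact g.ne_zero h
  -- now use the class of `t * b / W`
  obtain ⟨g, hg, hgt⟩ := (hf (t * b / W) (σ (f (t * b / W)))).1 (hσ _).symm
  obtain ⟨g', hg', hgt'⟩ := (hf b (W * σ (f (t * b / W)) + b)).1
    ((hcol (f (t * b / W))).trans hb'.symm |>.symm)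
  refine ⟨g' * g⁻¹, G.mul_mem hg' (G.inv_mem hg), g⁻¹, G.inv_mem hg, ?_⟩
  rw [hgt] at hgt'
  have hgne : (g : K) ≠ 0 := g.ne_zero
  rw [Units.val_mul, Units.val_inv_eq_inv_val]
  field_simp at hgt' ⊢
  linear_combination hgt'

end Pool.Agent.helper53.HF
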