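import Mathlib

/-! Counting lemmas for Boolean functions and for the orbits of the symmetric group of
degree three on pairs of elements of a finite abelian group. -/

set_option autoImplicit false

namespace Pool.Agent.helper53.HF

open Finset

section boolfun
variable {O : Type*} [Fintype O] [DecidableEq O]

/-- Functions which are true on `D`. -/
def allTrue (D : Finset O) : Finset (O → Bool) :=
  univ.filter (fun β => ∀ o ∈ D, β o = true)

theorem allTrue_card (D : Finset O) :
    (allTrue D).card * 2 ^ D.card ≤ 2 ^ Fintype.card O := by
  induction D using Finset.induction_on with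
  | empty =>
    simp only [card_empty, pow_zero, mul_one]
    calc (allTrue (∅ : Finset O)).card ≤ (univ : Finset (O → Bool)).card :=
          card_le_card (subset_univ _)
      _ = 2 ^ Fintype.card O := by simp
  | insert a D ha ih =>
    have h : (allTrue (insert a D)).card * 2 ≤ (allTrue D).card := by
      have h1 : (allTrue (insert a D) ×ˢ (univ : Finset Bool)).card ≤ (allTrue D).card := by
        apply Finset.card_le_card_of_injOn (fun p => Function.update p.1 a p.2)
        · rintro ⟨β, b⟩ hp
          simp only [coe_product, Set.mem_prod, mem_coe, allTrue, mem_filter, mem_univ,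
            true_and] at hp ⊢
          intro o ho
          have : o ≠ a := by rintro rfl; exact ha ho
          rw [Function.update_of_ne this]
          exact hp.1 o (mem_insert_of_mem ho)
        · rintro ⟨β, b⟩ hp ⟨β', b'⟩ hp' heq
          simp only [coe_product, Set.mem_prod, mem_coe, allTrue, mem_filter, mem_univ,
            true_and, and_true] at hp hp' heq
          have hb : b = b' := by
            have := congrFun heq a
            simpa using this
          have hβ : β = β' := by
            funext o
            by_cases ho : o = a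
            · subst ho
              rw [hp o (mem_insert_self _ _), hp' o (mem_insert_self _ _)]
            · have := congrFun heq o
              rwa [Function.update_of_ne ho, Function.update_of_ne ho] at this
          rw [hb, hβ]
      rw [card_product] at h1
      simpa using h1
    rw [card_insert_of_notMem ha, pow_succ]
    calc (allTrue (insert a D)).card * (2 ^ D.card * 2)
        = ((allTrue (insert a D)).card * 2) * 2 ^ D.card := by ring
      _ ≤ (allTrue D).card * 2 ^ D.card := Nat.mul_le_mul_right _ h
      _ ≤ _ := ih

/-- Functions with no index of `I` at which both `u` and `v` are true. -/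
def noneBoth {ι : Type*} (u v : ι → O) (I : Finset ι) : Finset (O → Bool) :=
  univ.filter (fun β => ∀ i ∈ I, ¬ (β (u i) = true ∧ β (v i) = true))

theorem noneBoth_card {ι : Type*} [DecidableEq ι] (u v : ι → O) (I : Finset ι)
    (hI : ∀ i ∈ I, ∀ j ∈ I, i ≠ j → u i ≠ u j ∧ u i ≠ v j ∧ v i ≠ u j ∧ v i ≠ v j) :
    (noneBoth u v I).card * 4 ^ I.card ≤ 3 ^ I.card * 2 ^ Fintype.card O := by
  induction I using Finset.induction_on with
  | empty =>
    simp only [card_empty, pow_zero, mul_one, one_mul]
    calc (noneBoth u v (∅ : Finset ι)).card ≤ (univ : Finset (O → Bool)).card :=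
          card_le_card (subset_univ _)
      _ = 2 ^ Fintype.card O := by simp
  | insert a I ha ih =>
    have ih' := ih (fun i hi j hj => hI i (mem_insert_of_mem hi) j (mem_insert_of_mem hj))
    set S := noneBoth u v I with hS
    set P := S.filter (fun β => β (u a) = true ∧ β (v a) = true) with hP
    have hsplit : (noneBoth u v (insert a I)).card + P.card = S.card := by
      have : noneBoth u v (insert a I) =
          S.filter (fun β => ¬ (β (u a) = true ∧ β (v a) = true)) := by
        ext β
        simp only [noneBoth, mem_filter, mem_univ, true_and, hS, mem_insert, forall_eq_or_imp]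
        tauto
      rw [this, hP, add_comm]
      exact Finset.card_filter_add_card_filter_not _
    have h4 : S.card ≤ 4 * P.card := by
      set g : (O → Bool) → (O → Bool) :=
        fun β => Function.update (Function.update β (u a) true) (v a) true with hg
      have hmaps : ∀ β ∈ S, g β ∈ P := by
        intro β hβ
        simp only [hP, mem_filter, hS, noneBoth, mem_univ, true_and] at hβ ⊢
        refine ⟨?_, ?_, ?_⟩
        · intro i hi
          have hne : a ≠ i := by rintro rfl; exact ha hi
          obtain ⟨h1, h2, h3, h4⟩ := hI a (mem_insert_self _ _) i (mem_insert_of_mem hi) hne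
          simp only [hg]
          rw [Function.update_of_ne h3.symm, Function.update_of_ne h1.symm,
            Function.update_of_ne h4.symm, Function.update_of_ne h2.symm]
          exact hβ i hi
        · simp only [hg]
          by_cases h : u a = v a
          · rw [h]; simp
          · rw [Function.update_of_ne h]; simp
        · simp [hg]
      refine Finset.card_le_mul_card_image_of_maps_to (f := g) hmaps 4 ?_
      intro γ _
      have : (S.filter (fun β => g β = γ)).card ≤
          (univ : Finset (Bool × Bool)).card := by
        apply Finset.card_le_card_of_injOn (fun β => (β (u a), β (v a)))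
        · intro β _; simp
        · intro β hβ β' hβ' heq
          rw [mem_coe, mem_filter] at hβ hβ'
          simp only [Prod.mk.injEq] at heq
          have h0 : g β = g β' := hβ.2.trans hβ'.2.symm
          funext o
          by_cases h1 : o = v a
          · rw [h1]; exact heq.2
          · by_cases h2 : o = u a
            · rw [h2]; exact heq.1
            · have := congrFun h0 o
              simp only [hg] at this
              rwa [Function.update_of_ne h1, Function.update_of_ne h2,
                Function.update_of_ne h1, Function.update_of_ne h2] at this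
      simpa using this
    have h3 : 4 * (noneBoth u v (insert a I)).card ≤ 3 * S.card := by omega
    rw [card_insert_of_notMem ha, pow_succ, pow_succ]
    calc (noneBoth u v (insert a I)).card * (4 ^ I.card * 4)
        = (4 * (noneBoth u v (insert a I)).card) * 4 ^ I.card := by ring
      _ ≤ (3 * S.card) * 4 ^ I.card := Nat.mul_le_mul_right _ h3
      _ = 3 * (S.card * 4 ^ I.card) := by ring
      _ ≤ 3 * (3 ^ I.card * 2 ^ Fintype.card O) := Nat.mul_le_mul_left _ ih'
      _ = _ := by ring

end boolfun

/-- Greedy independent sets. -/
theorem exists_indep {A : Type*} [Fintype A] [DecidableEq A] (C : A → A → Prop)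
    [∀ a, DecidablePred (C a)] (hrefl : ∀ a, C a a) (hsymm : ∀ a b, C a b → C b a) (k : ℕ)
    (hk : ∀ a, (univ.filter (C a)).card ≤ k) :
    ∃ I : Finset A, (∀ i ∈ I, ∀ j ∈ I, i ≠ j → ¬ C i j) ∧ Fintype.card A ≤ I.card * k := by
  classical
  obtain ⟨I, hI, hmax⟩ := Finset.exists_max_image
    ((univ : Finset (Finset A)).filter (fun I => ∀ i ∈ I, ∀ j ∈ I, i ≠ j → ¬ C i j))
    Finset.card ⟨∅, by simp⟩
  simp only [mem_filter, mem_univ, true_and] at hI hmax
  refine ⟨I, hI, ?_⟩
  have hcov : (univ : Finset A) ⊆ I.biUnion (fun i => univ.filter (C i)) := by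
    intro a _
    rw [mem_biUnion]
    by_contra hcon
    push Not at hcon
    have hcon' : ∀ i ∈ I, ¬ C i a := by
      intro i hi h
      exact hcon i hi (by simp [h])
    have haI : a ∉ I := fun h => hcon' a h (hrefl a)
    have := hmax (insert a I) (by
      intro i hi j hj hij
      rw [mem_insert] at hi hj
      rcases hi with rfl | hi <;> rcases hj with rfl | hj
      · exact absurd rfl hij
      · exact fun h => hcon' j hj (hsymm _ _ h)
      · exact hcon' i hi
      · exact hI i hi j hj hij)
    rw [card_insert_of_notMem haI] at this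
    omega
  calc Fintype.card A = (univ : Finset A).card := rfl
    _ ≤ (I.biUnion (fun i => univ.filter (C i))).card := card_le_card hcov
    _ ≤ I.card * k := Finset.card_biUnion_le_card_mul _ _ _ (fun i _ => hk i)

section orbits
variable {A : Type*} [CommGroup A] [Fintype A] [DecidableEq A]

/-- The orbit of a pair. -/
def orb (p : A × A) : Finset (A × A) :=
  {(p.1, p.2), (p.2, p.1), (p.1⁻¹, p.1⁻¹ * p.2), (p.1⁻¹ * p.2, p.1⁻¹),
    (p.2⁻¹, p.2⁻¹ * p.1), (p.2⁻¹ * p.1, p.2⁻¹)}

omit [Fintype A] in
theorem mem_orb_self (p : A × A) : p ∈ orb p := by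
  simp [orb]

omit [Fintype A] in
theorem orb_card_le (p : A × A) : (orb p).card ≤ 6 := by
  unfold orb
  exact Finset.card_le_six

omit [Fintype A] in
theorem orb_swap (x y : A) : orb (y, x) = orb (x, y) := by
  ext q
  simp only [orb, mem_insert, mem_singleton]
  tauto

omit [Fintype A] in
theorem orb_rot (x y : A) : orb (x⁻¹, x⁻¹ * y) = orb (x, y) := by
  have h1 : x⁻¹⁻¹ * (x⁻¹ * y) = y := by group
  have h2 : (x⁻¹ * y)⁻¹ = y⁻¹ * x := by group
  have h3 : (x⁻¹ * y)⁻¹ * x⁻¹ = y⁻¹ := by group
  ext q
  simp only [orb, mem_insert, mem_singleton, h1, h3]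
  rw [h2, inv_inv]
  tauto

/-- The setoid on pairs with the same orbit. -/
def orbSetoid (A : Type*) [CommGroup A] [DecidableEq A] : Setoid (A × A) :=
  Setoid.ker (orb (A := A))

instance : DecidableRel (orbSetoid A).r := fun p q =>
  inferInstanceAs (Decidable (orb p = orb q))

/-- The type of orbits. -/
def Orb (A : Type*) [CommGroup A] [DecidableEq A] : Type _ := Quotient (orbSetoid A)

instance : DecidableEq (Orb A) :=
  inferInstanceAs (DecidableEq (Quotient (orbSetoid A)))

instance : Fintype (Orb A) := inferInstanceAs (Fintype (Quotient (orbSetoid A)))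

/-- The orbit of `(x, y)` as an element of `Orb A`. -/
def mkO (x y : A) : Orb A := Quotient.mk (orbSetoid A) (x, y)

omit [Fintype A] in
theorem mkO_eq_iff (x y x' y' : A) : mkO x y = mkO x' y' ↔ orb (x, y) = orb (x', y') := by
  exact Quotient.eq (r := orbSetoid A)

omit [Fintype A] in
theorem mkO_swap (x y : A) : mkO y x = mkO x y := (mkO_eq_iff _ _ _ _).2 (orb_swap x y)

omit [Fintype A] in
theorem mkO_rot (x y : A) : mkO x⁻¹ (x⁻¹ * y) = mkO x y :=
  (mkO_eq_iff _ _ _ _).2 (orb_rot x y)

theorem fiber_card_le (o : Orb A) :
    ((univ : Finset (A × A)).filter (fun p => mkO p.1 p.2 = o)).card ≤ 6 := by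
  induction o using Quotient.inductionOn with
  | h p =>
    refine le_trans (card_le_card ?_) (orb_card_le p)
    intro q hq
    rw [mem_filter] at hq
    have h := (mkO_eq_iff q.1 q.2 p.1 p.2).1 hq.2
    have : q ∈ orb (q.1, q.2) := mem_orb_self q
    rw [h] at this
    exact this

theorem card_orb_ge : Fintype.card A ^ 2 ≤ Fintype.card (Orb A) * 6 := by
  have h := Finset.card_le_mul_card_image_of_maps_to (s := (univ : Finset (A × A)))
    (t := (univ : Finset (Orb A))) (f := fun p => mkO p.1 p.2) (fun _ _ => mem_univ _) 6
    (fun o _ => fiber_card_le o)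
  rw [card_univ, card_univ, Fintype.card_prod] at h
  rw [sq, mul_comm _ 6]
  exact h

theorem line_card_le (b d : A) (o : Orb A) :
    ((univ : Finset A).filter (fun y => mkO b (d * y) = o)).card ≤ 6 := by
  refine le_trans ?_ (fiber_card_le o)
  apply Finset.card_le_card_of_injOn (fun y => (b, d * y))
  · intro y hy
    rw [mem_coe, mem_filter] at hy ⊢
    exact ⟨mem_univ _, hy.2⟩
  · intro y _ y' _ h
    simp only [Prod.mk.injEq, mul_right_inj, true_and] at h
    exact h

/-- The orbits meeting the line with first coordinate `e`. -/
def lineOrb (e : A) : Finset (Orb A) := univ.image (fun y => mkO e y)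

theorem lineOrb_card (e : A) : Fintype.card A ≤ (lineOrb e).card * 6 := by
  have h := Finset.card_le_mul_card_image_of_maps_to (s := (univ : Finset A))
    (t := lineOrb e) (f := fun y => mkO e y) (fun y _ => mem_image_of_mem _ (mem_univ _)) 6
    (fun o _ => by
      have := line_card_le e 1 o
      simpa using this)
  rw [card_univ] at h
  rw [mul_comm]
  exact h

/-- The functions on orbits which give an associative hyperaddition. -/
def Good (β : Orb A → Bool) : Prop :=
  ∀ b c d : A, ∃ y : A, β (mkO b y) = true ∧ β (mkO c (d * y)) = true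

theorem bad_card (b c d : A) :
    ∃ m : ℕ, Fintype.card A ≤ m * 24 ∧
    ((univ : Finset (Orb A → Bool)).filter
      (fun β => ∀ y : A, ¬ (β (mkO b y) = true ∧ β (mkO c (d * y)) = true))).card * 4 ^ m ≤
      3 ^ m * 2 ^ Fintype.card (Orb A) := by
  classical
  set u : A → Orb A := fun y => mkO b y with hu
  set v : A → Orb A := fun y => mkO c (d * y) with hv
  obtain ⟨I, hI, hcard⟩ := exists_indep (A := A)
    (fun y y' => u y = u y' ∨ u y = v y' ∨ v y = u y' ∨ v y = v y')
    (fun y => Or.inl rfl)
    (by
      intro y y' h
      rcases h with h | h | h | h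
      · exact Or.inl h.symm
      · exact Or.inr (Or.inr (Or.inl h.symm))
      · exact Or.inr (Or.inl h.symm)
      · exact Or.inr (Or.inr (Or.inr h.symm)))
    24
    (by
      intro y
      have hsub : (univ.filter (fun y' => u y = u y' ∨ u y = v y' ∨ v y = u y' ∨ v y = v y'))
          ⊆ ((univ.filter (fun y' => mkO b (1 * y') = u y)) ∪
              (univ.filter (fun y' => mkO c (d * y') = u y))) ∪
            ((univ.filter (fun y' => mkO b (1 * y') = v y)) ∪
              (univ.filter (fun y' => mkO c (d * y') = v y))) := by
        intro y' hy'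
        simp only [mem_union, mem_filter, mem_univ, true_and, one_mul] at hy' ⊢
        rcases hy' with h | h | h | h
        · exact Or.inl (Or.inl h.symm)
        · exact Or.inl (Or.inr h.symm)
        · exact Or.inr (Or.inl h.symm)
        · exact Or.inr (Or.inr h.symm)
      refine le_trans (card_le_card hsub) ?_
      refine le_trans (card_union_le _ _) ?_
      have h1 := card_union_le (univ.filter (fun y' => mkO b (1 * y') = u y))
        (univ.filter (fun y' => mkO c (d * y') = u y))
      have h2 := card_union_le (univ.filter (fun y' => mkO b (1 * y') = v y))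
        (univ.filter (fun y' => mkO c (d * y') = v y))
      have h3 := line_card_le b 1 (u y)
      have h4 := line_card_le b 1 (v y)
      have h5 := line_card_le c d (u y)
      have h6 := line_card_le c d (v y)
      omega)
  refine ⟨I.card, hcard, ?_⟩
  have h := noneBoth_card u v I (by
    intro i hi j hj hij
    have := hI i hi j hj hij
    push Not at this
    exact this)
  refine le_trans (Nat.mul_le_mul_right _ (card_le_card ?_)) h
  intro β hβ
  simp only [mem_filter, mem_univ, true_and, noneBoth] at hβ ⊢
  intro i _
  exact hβ i

open Classical in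
theorem good_card (hA : (Fintype.card A : ℝ) ^ 3 * (3 / 4 : ℝ) ^ ((Fintype.card A : ℝ) / 24) ≤
      1 / 2) :
    (2 : ℝ) ^ Fintype.card (Orb A) / 2 ≤
      (((univ : Finset (Orb A → Bool)).filter (fun β => Good β)).card : ℝ) := by
  set T : ℝ := (2 : ℝ) ^ Fintype.card (Orb A) with hT
  have hTpos : 0 < T := by positivity
  set B : A × A × A → Finset (Orb A → Bool) := fun p =>
    (univ : Finset (Orb A → Bool)).filter
      (fun β => ∀ y : A, ¬ (β (mkO p.1 y) = true ∧ β (mkO p.2.1 (p.2.2 * y)) = true)) with hB
  have hBcard : ∀ p, ((B p).card : ℝ) ≤ (3 / 4 : ℝ) ^ ((Fintype.card A : ℝ) / 24) * T := by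
    intro p
    obtain ⟨m, hm, hc⟩ := bad_card p.1 p.2.1 p.2.2
    have hc' : ((B p).card : ℝ) * 4 ^ m ≤ 3 ^ m * T := by
      rw [hT]
      exact_mod_cast hc
    have h4 : (0 : ℝ) < 4 ^ m := by positivity
    have h1 : ((B p).card : ℝ) ≤ (3 / 4 : ℝ) ^ m * T := by
      rw [div_pow, div_mul_eq_mul_div, le_div_iff₀ h4]
      exact hc'
    refine le_trans h1 (mul_le_mul_of_nonneg_right ?_ hTpos.le)
    rw [← Real.rpow_natCast]
    apply Real.rpow_le_rpow_of_exponent_ge (by norm_num) (by norm_num)
    rw [div_le_iff₀ (by norm_num)]
    exact_mod_cast hm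
  have hcover : (univ : Finset (Orb A → Bool)) ⊆
      ((univ : Finset (Orb A → Bool)).filter (fun β => Good β)) ∪
        (univ : Finset (A × A × A)).biUnion B := by
    intro β _
    by_cases hβ : Good β
    · exact mem_union_left _ (by simp [hβ])
    · refine mem_union_right _ ?_
      unfold Good at hβ
      push Not at hβ
      obtain ⟨b, c, d, h⟩ := hβ
      rw [mem_biUnion]
      refine ⟨(b, c, d), mem_univ _, ?_⟩
      simp only [hB, mem_filter, mem_univ, true_and]
      intro y hy
      exact h y hy.1 hy.2
  have h1 := card_le_card hcover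
  have h2 := card_union_le ((univ : Finset (Orb A → Bool)).filter (fun β => Good β))
    ((univ : Finset (A × A × A)).biUnion B)
  have h3 : (univ : Finset (Orb A → Bool)).card = 2 ^ Fintype.card (Orb A) := by simp
  have h4 : (((univ : Finset (A × A × A)).biUnion B).card : ℝ) ≤ T / 2 := by
    calc (((univ : Finset (A × A × A)).biUnion B).card : ℝ)
        ≤ ((∑ p : A × A × A, (B p).card : ℕ) : ℝ) := by
          exact_mod_cast Finset.card_biUnion_le
      _ = ∑ p : A × A × A, ((B p).card : ℝ) := by push_cast; rfl
      _ ≤ ∑ _p : A × A × A, (3 / 4 : ℝ) ^ ((Fintype.card A : ℝ) / 24) * T :=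
          Finset.sum_le_sum (fun p _ => hBcard p)
      _ = (Fintype.card A : ℝ) ^ 3 * (3 / 4 : ℝ) ^ ((Fintype.card A : ℝ) / 24) * T := by
          rw [Finset.sum_const, nsmul_eq_mul, card_univ, Fintype.card_prod, Fintype.card_prod]
          push_cast
          ring
      _ ≤ 1 / 2 * T := mul_le_mul_of_nonneg_right hA hTpos.le
      _ = T / 2 := by ring
  have h5 : T ≤ (((univ : Finset (Orb A → Bool)).filter (fun β => Good β)).card : ℝ) +
      (((univ : Finset (A × A × A)).biUnion B).card : ℝ) := by
    rw [hT]
    have := h1.trans h2
    rw [h3] at this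
    exact_mod_cast this
  linarith

end orbits

end Pool.Agent.helper53.HF
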