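import Mathlib
import Pool.Agent.helper53.HF.Count

/-! Hyperadditions on a finite commutative group with zero. -/

set_option autoImplicit false

namespace Pool.Agent.helper53.HF

open Finset

section
variable {X : Type} [CommGroupWithZero X] [Fintype X] [DecidableEq X]

/-- The hyperfield axioms for the hyperaddition `s`, multiplication fixed. -/
def HypAdd (s : X → X → Set X) : Prop :=
  (∀ a b, (s a b).Nonempty) ∧
  (∀ a b, s a b = s b a) ∧
  (∀ a b c, (⋃ x ∈ s a b, s x c) = ⋃ x ∈ s b c, s a x) ∧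
  (∀ a, s 0 a = {a}) ∧
  (∀ a, ∃! b, (0 : X) ∈ s a b) ∧
  (∀ a b c d, a ∈ s b c → (0 : X) ∈ s b d → c ∈ s a d) ∧
  (∀ a b c, (fun x => a * x) '' s b c = s (a * b) (a * c))

/-- Weak axioms (no associativity, no nonemptiness), together with `1 - 1` being everything. -/
def FullPre (s : X → X → Set X) : Prop :=
  (∀ a b, s a b = s b a) ∧
  (∀ a, s 0 a = {a}) ∧
  (∀ a, ∃! b, (0 : X) ∈ s a b) ∧
  (∀ a b c d, a ∈ s b c → (0 : X) ∈ s b d → c ∈ s a d) ∧
  (∀ a b c, (fun x => a * x) '' s b c = s (a * b) (a * c)) ∧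
  (∀ b, (0 : X) ∈ s 1 b → s 1 b = Set.univ)

/-- Hyperaddition attached to a function on orbits (with `-1 = 1`). -/
def addOf (β : Orb Xˣ → Bool) (a b : X) : Set X :=
  {c | (a = 0 ∧ c = b) ∨ (b = 0 ∧ c = a) ∨ (a ≠ 0 ∧ b ≠ 0 ∧ c = 0 ∧ a = b) ∨
    ∃ a' b' c' : Xˣ, a = a' ∧ b = b' ∧ c = c' ∧ β (mkO (a'⁻¹ * b') (a'⁻¹ * c')) = true}

omit [Fintype X] in
theorem addOf_zero_left (β : Orb Xˣ → Bool) (b : X) : addOf β 0 b = {b} := by
  ext c
  simp only [addOf, Set.mem_ofPred_eq, Set.mem_singleton_iff]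
  constructor
  · rintro (h | h | h | ⟨a', b', c', h, -⟩)
    · exact h.2
    · rw [h.1, h.2]
    · exact absurd rfl h.1
    · exact absurd h.symm a'.ne_zero
  · intro h; exact Or.inl ⟨trivial, h⟩

omit [Fintype X] in
theorem addOf_zero_right (β : Orb Xˣ → Bool) (a : X) : addOf β a 0 = {a} := by
  ext c
  simp only [addOf, Set.mem_ofPred_eq, Set.mem_singleton_iff]
  constructor
  · rintro (h | h | h | ⟨a', b', c', -, h, -⟩)
    · rw [h.1, h.2]
    · exact h.2
    · exact absurd rfl h.2.1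
    · exact absurd h.symm b'.ne_zero
  · intro h; exact Or.inr (Or.inl ⟨trivial, h⟩)

omit [Fintype X] in
theorem zero_mem_addOf (β : Orb Xˣ → Bool) (a b : Xˣ) :
    (0 : X) ∈ addOf β (a : X) (b : X) ↔ a = b := by
  simp only [addOf, Set.mem_ofPred_eq]
  constructor
  · rintro (h | h | h | ⟨a', b', c', -, -, h, -⟩)
    · exact absurd h.1 a.ne_zero
    · exact absurd h.1 b.ne_zero
    · exact Units.ext h.2.2.2
    · exact absurd h.symm c'.ne_zero
  · rintro rfl
    exact Or.inr (Or.inr (Or.inl ⟨a.ne_zero, a.ne_zero, trivial, rfl⟩))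

omit [Fintype X] in
theorem unit_mem_addOf (β : Orb Xˣ → Bool) (a b c : Xˣ) :
    (c : X) ∈ addOf β (a : X) (b : X) ↔ β (mkO (a⁻¹ * b) (a⁻¹ * c)) = true := by
  simp only [addOf, Set.mem_ofPred_eq]
  constructor
  · rintro (h | h | h | ⟨a', b', c', h1, h2, h3, h⟩)
    · exact absurd h.1 a.ne_zero
    · exact absurd h.1 b.ne_zero
    · exact absurd h.2.2.1 c.ne_zero
    · rw [Units.ext h1, Units.ext h2, Units.ext h3]; exact h
  · intro h
    exact Or.inr (Or.inr (Or.inr ⟨a, b, c, rfl, rfl, rfl, h⟩))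

omit [Fintype X] [DecidableEq X] in
theorem zero_or_unit (a : X) : a = 0 ∨ ∃ u : Xˣ, a = u := by
  rcases eq_or_ne a 0 with h | h
  · exact Or.inl h
  · exact Or.inr ⟨Units.mk0 a h, rfl⟩

theorem mkO_perm {A : Type*} [CommGroup A] [DecidableEq A] (a b c : A) :
    mkO (a⁻¹ * b) (a⁻¹ * c) = mkO (b⁻¹ * a) (b⁻¹ * c) := by
  have h := mkO_rot (a⁻¹ * b) (a⁻¹ * c)
  have h1 : (a⁻¹ * b)⁻¹ = b⁻¹ * a := by group
  have h2 : (a⁻¹ * b)⁻¹ * (a⁻¹ * c) = b⁻¹ * c := by group
  rw [h2, h1] at h
  exact h.symm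

theorem mkO_perm' {A : Type*} [CommGroup A] [DecidableEq A] (a b c : A) :
    mkO (a⁻¹ * b) (a⁻¹ * c) = mkO (a⁻¹ * c) (a⁻¹ * b) := mkO_swap _ _

omit [Fintype X] in
theorem addOf_comm (β : Orb Xˣ → Bool) (a b : X) : addOf β a b = addOf β b a := by
  rcases zero_or_unit a with rfl | ⟨u, rfl⟩
  · rw [addOf_zero_left, addOf_zero_right]
  rcases zero_or_unit b with rfl | ⟨v, rfl⟩
  · rw [addOf_zero_left, addOf_zero_right]
  ext c
  rcases zero_or_unit c with rfl | ⟨w, rfl⟩
  · rw [zero_mem_addOf, zero_mem_addOf, eq_comm]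
  · rw [unit_mem_addOf, unit_mem_addOf, mkO_perm]

omit [Fintype X] in
theorem addOf_hyp (β : Orb Xˣ → Bool) (hβ : Good β) : HypAdd (addOf β) := by
  refine ⟨?_, addOf_comm β, ?_, addOf_zero_left β, ?_, ?_, ?_⟩
  · intro a b
    rcases zero_or_unit a with rfl | ⟨u, rfl⟩
    · rw [addOf_zero_left]; exact Set.singleton_nonempty _
    rcases zero_or_unit b with rfl | ⟨v, rfl⟩
    · rw [addOf_zero_right]; exact Set.singleton_nonempty _
    obtain ⟨y, hy, -⟩ := hβ (u⁻¹ * v) 1 1
    refine ⟨((u * y : Xˣ) : X), ?_⟩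
    rw [unit_mem_addOf]
    simpa using hy
  · intro a b c
    rcases zero_or_unit a with rfl | ⟨u, rfl⟩
    · simp only [addOf_zero_left]
      ext d
      simp
    rcases zero_or_unit c with rfl | ⟨w, rfl⟩
    · simp only [addOf_zero_right]
      ext d
      simp
    rcases zero_or_unit b with rfl | ⟨v, rfl⟩
    · simp only [addOf_zero_left, addOf_zero_right]
      ext d
      simp
    ext d
    simp only [Set.mem_iUnion, exists_prop]
    rcases zero_or_unit d with rfl | ⟨z, rfl⟩
    · constructor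
      · rintro ⟨x, hx, hd⟩
        rcases zero_or_unit x with rfl | ⟨t, rfl⟩
        · rw [addOf_zero_left] at hd
          exact absurd (Set.mem_singleton_iff.1 hd).symm w.ne_zero
        · rw [zero_mem_addOf] at hd
          subst hd
          refine ⟨(u : X), ?_, (zero_mem_addOf β u u).2 rfl⟩
          rw [unit_mem_addOf] at hx ⊢
          rw [← hx, mkO_perm u v t, mkO_perm']
      · rintro ⟨x, hx, hd⟩
        rcases zero_or_unit x with rfl | ⟨t, rfl⟩
        · rw [addOf_zero_right] at hd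
          exact absurd (Set.mem_singleton_iff.1 hd).symm u.ne_zero
        · rw [zero_mem_addOf] at hd
          subst hd
          refine ⟨(w : X), ?_, (zero_mem_addOf β w w).2 rfl⟩
          rw [unit_mem_addOf] at hx ⊢
          rw [← hx, mkO_perm u v w, mkO_perm']
    · constructor
      · intro _
        obtain ⟨y, hy1, hy2⟩ := hβ (v⁻¹ * w) (u⁻¹ * z) (u⁻¹ * v)
        refine ⟨((v * y : Xˣ) : X), ?_, ?_⟩
        · rw [unit_mem_addOf]
          simpa using hy1
        · rw [unit_mem_addOf, mkO_perm', ← hy2]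
          congr 2
          rw [mul_assoc]
      · intro _
        obtain ⟨y, hy1, hy2⟩ := hβ (u⁻¹ * v) (w⁻¹ * z) (w⁻¹ * u)
        refine ⟨((u * y : Xˣ) : X), ?_, ?_⟩
        · rw [unit_mem_addOf]
          simpa using hy1
        · rw [unit_mem_addOf, mkO_perm, mkO_perm', ← hy2]
          congr 2
          rw [mul_assoc]
  · intro a
    refine ⟨a, ?_, ?_⟩
    · rcases zero_or_unit a with rfl | ⟨u, rfl⟩
      · simp [addOf_zero_left]
      · exact (zero_mem_addOf β u u).2 rfl
    · intro b hb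
      rcases zero_or_unit a with rfl | ⟨u, rfl⟩
      · rw [addOf_zero_left] at hb
        exact (Set.mem_singleton_iff.1 hb).symm
      · rcases zero_or_unit b with rfl | ⟨v, rfl⟩
        · rw [addOf_zero_right] at hb
          exact absurd (Set.mem_singleton_iff.1 hb).symm u.ne_zero
        · rw [(zero_mem_addOf β u v).1 hb]
  · intro a b c d ha h0
    have hbd : b = d := by
      rcases zero_or_unit b with rfl | ⟨u, rfl⟩
      · rw [addOf_zero_left] at h0
        exact (Set.mem_singleton_iff.1 h0)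
      · rcases zero_or_unit d with rfl | ⟨v, rfl⟩
        · rw [addOf_zero_right] at h0
          exact absurd (Set.mem_singleton_iff.1 h0).symm u.ne_zero
        · rw [(zero_mem_addOf β u v).1 h0]
    subst hbd
    rcases zero_or_unit b with rfl | ⟨v, rfl⟩
    · rw [addOf_zero_left] at ha
      rw [addOf_zero_right]
      exact (Set.mem_singleton_iff.1 ha).symm
    rcases zero_or_unit c with rfl | ⟨w, rfl⟩
    · rw [addOf_zero_right] at ha
      rw [Set.mem_singleton_iff.1 ha]
      exact (zero_mem_addOf β v v).2 rfl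
    rcases zero_or_unit a with rfl | ⟨u, rfl⟩
    · rw [(zero_mem_addOf β v w).1 ha, addOf_zero_left]
      rfl
    · rw [unit_mem_addOf] at ha ⊢
      rw [← ha, mkO_perm' v w u, mkO_perm v u w]
  · intro a b c
    rcases zero_or_unit a with rfl | ⟨u, rfl⟩
    · have hne : (addOf β b c).Nonempty := by
        rcases zero_or_unit b with rfl | ⟨v, rfl⟩
        · rw [addOf_zero_left]; exact Set.singleton_nonempty _
        rcases zero_or_unit c with rfl | ⟨w, rfl⟩
        · rw [addOf_zero_right]; exact Set.singleton_nonempty _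
        obtain ⟨y, hy, -⟩ := hβ (v⁻¹ * w) 1 1
        refine ⟨((v * y : Xˣ) : X), ?_⟩
        rw [unit_mem_addOf]
        simpa using hy
      simp only [zero_mul, addOf_zero_left]
      exact hne.image_const 0
    have hkey : ∀ (b c x : X), x ∈ addOf β b c ↔ (u : X) * x ∈ addOf β (u * b) (u * c) := by
      intro b c x
      rcases zero_or_unit b with rfl | ⟨v, rfl⟩
      · rw [mul_zero, addOf_zero_left, addOf_zero_left]
        simp
      rcases zero_or_unit c with rfl | ⟨w, rfl⟩
      · rw [mul_zero, addOf_zero_right, addOf_zero_right]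
        simp
      rcases zero_or_unit x with rfl | ⟨t, rfl⟩
      · rw [mul_zero, ← Units.val_mul, ← Units.val_mul, zero_mem_addOf, zero_mem_addOf]
        simp
      · rw [← Units.val_mul, ← Units.val_mul, ← Units.val_mul, unit_mem_addOf, unit_mem_addOf]
        have h1 : (u * v)⁻¹ * (u * w) = v⁻¹ * w := by group
        have h2 : (u * v)⁻¹ * (u * t) = v⁻¹ * t := by group
        rw [h1, h2]
    ext x
    constructor
    · rintro ⟨y, hy, rfl⟩
      exact (hkey b c y).1 hy
    · intro hx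
      refine ⟨(u⁻¹ : Xˣ) * x, ?_, by simp⟩
      rw [hkey]
      simpa using hx

omit [Fintype X] in
theorem addOf_injective : Function.Injective (addOf (X := X)) := by
  intro β β' h
  funext o
  induction o using Quotient.inductionOn with
  | h p =>
    have h1 := unit_mem_addOf β 1 p.1 p.2
    have h2 := unit_mem_addOf β' 1 p.1 p.2
    rw [h] at h1
    have h3 := h1.symm.trans h2
    simp only [inv_one, one_mul] at h3
    rw [Bool.eq_iff_iff]
    exact h3

/-- The symmetric relation attached to a hyperaddition. -/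
def relOf (s : X → X → Set X) (e : Xˣ) (x y : Xˣ) : Prop :=
  ((e * y : Xˣ) : X) ∈ s 1 (x : X)

omit [Fintype X] [DecidableEq X] in
theorem FullPre.scale {s : X → X → Set X} (hs : FullPre s) (u : Xˣ) (b c x : X) :
    x ∈ s b c ↔ (u : X) * x ∈ s (u * b) (u * c) := by
  rw [← hs.2.2.2.2.1 (u : X) b c]
  constructor
  · intro h; exact ⟨x, h, rfl⟩
  · rintro ⟨y, hy, hyx⟩
    have : y = x := by
      have h := congrArg (fun t => ((u⁻¹ : Xˣ) : X) * t) hyx
      simpa using h
    rwa [← this]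

omit [Fintype X] [DecidableEq X] in
theorem FullPre.exists_neg {s : X → X → Set X} (hs : FullPre s) :
    ∃ e : Xˣ, (0 : X) ∈ s 1 (e : X) ∧ e * e = 1 := by
  obtain ⟨b, hb, -⟩ := hs.2.2.1 1
  rcases zero_or_unit b with rfl | ⟨e, rfl⟩
  · rw [hs.1, hs.2.1] at hb
    exact absurd (Set.mem_singleton_iff.1 hb).symm one_ne_zero
  · refine ⟨e, hb, ?_⟩
    have h1 : (0 : X) ∈ s (e : X) ((e * e : Xˣ) : X) := by
      have := (hs.scale e 1 e 0).1 hb
      simpa using this
    have h2 : (0 : X) ∈ s (e : X) ((1 : Xˣ) : X) := by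
      rw [hs.1]; simpa using hb
    exact Units.ext ((hs.2.2.1 (e : X)).unique h1 h2)

omit [Fintype X] [DecidableEq X] in
theorem FullPre.relOf_swap {s : X → X → Set X} (hs : FullPre s) {e : Xˣ}
    (he : (0 : X) ∈ s 1 (e : X)) (hee : e * e = 1) (x y : Xˣ) (h : relOf s e x y) :
    relOf s e y x := by
  unfold relOf at h ⊢
  have h1 := hs.2.2.2.1 _ _ _ _ h he
  -- `x ∈ s (e y) e`
  have h2 := (hs.scale e _ _ _).1 h1
  rw [← Units.val_mul, ← Units.val_mul, ← Units.val_mul, ← mul_assoc, hee, one_mul] at h2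
  rw [hs.1]
  simpa using h2

omit [Fintype X] [DecidableEq X] in
theorem FullPre.relOf_rot {s : X → X → Set X} (hs : FullPre s) {e : Xˣ}
    (x y : Xˣ) (h : relOf s e x y) : relOf s e x⁻¹ (x⁻¹ * y) := by
  unfold relOf at h ⊢
  have h2 := (hs.scale x⁻¹ _ _ _).1 h
  rw [← Units.val_mul, ← Units.val_mul, inv_mul_cancel, mul_one, hs.1] at h2
  have h3 : x⁻¹ * (e * y) = e * (x⁻¹ * y) := by
    rw [← mul_assoc, mul_comm x⁻¹ e, mul_assoc]
  rw [h3] at h2
  simpa using h2

omit [Fintype X] in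
theorem FullPre.relOf_orb {s : X → X → Set X} (hs : FullPre s) {e : Xˣ}
    (he : (0 : X) ∈ s 1 (e : X)) (hee : e * e = 1) (p q : Xˣ × Xˣ) (hpq : orb p = orb q)
    (h : relOf s e p.1 p.2) : relOf s e q.1 q.2 := by
  have hq : q ∈ orb p := by rw [hpq]; exact mem_orb_self q
  obtain ⟨x, y⟩ := p
  have h1 : relOf s e y x := hs.relOf_swap he hee _ _ h
  have h2 : relOf s e x⁻¹ (x⁻¹ * y) := hs.relOf_rot _ _ h
  have h3 : relOf s e (x⁻¹ * y) x⁻¹ := hs.relOf_swap he hee _ _ h2
  have h4 : relOf s e y⁻¹ (y⁻¹ * x) := hs.relOf_rot _ _ h1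
  have h5 : relOf s e (y⁻¹ * x) y⁻¹ := hs.relOf_swap he hee _ _ h4
  simp only [orb, mem_insert, mem_singleton] at hq
  rcases hq with rfl | rfl | rfl | rfl | rfl | rfl
  · exact h
  · exact h1
  · exact h2
  · exact h3
  · exact h4
  · exact h5

open Classical in
/-- The Boolean function on orbits attached to a hyperaddition. -/
noncomputable def betaOf (s : X → X → Set X) (e : Xˣ) (o : Orb Xˣ) : Bool :=
  decide (relOf s e (Quotient.out o).1 (Quotient.out o).2)

omit [Fintype X] in
theorem FullPre.betaOf_mkO {s : X → X → Set X} (hs : FullPre s) {e : Xˣ}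
    (he : (0 : X) ∈ s 1 (e : X)) (hee : e * e = 1) (x y : Xˣ) :
    betaOf s e (mkO x y) = true ↔ relOf s e x y := by
  classical
  unfold betaOf
  rw [decide_eq_true_iff]
  have h : orb (Quotient.out (mkO x y)) = orb (x, y) := Quotient.mk_out (s := orbSetoid Xˣ) (x, y)
  constructor
  · exact hs.relOf_orb he hee _ _ h
  · exact hs.relOf_orb he hee _ _ h.symm

omit [Fintype X] in
theorem FullPre.ext {s s' : X → X → Set X} (hs : FullPre s) (hs' : FullPre s') {e : Xˣ}
    (he : (0 : X) ∈ s 1 (e : X)) (he' : (0 : X) ∈ s' 1 (e : X)) (hee : e * e = 1)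
    (h : betaOf s e = betaOf s' e) : s = s' := by
  funext a b
  rcases zero_or_unit a with rfl | ⟨u, rfl⟩
  · rw [hs.2.1, hs'.2.1]
  rcases zero_or_unit b with rfl | ⟨v, rfl⟩
  · rw [hs.1, hs'.1, hs.2.1, hs'.2.1]
  have hone : ∀ x : Xˣ, s 1 (x : X) = s' 1 (x : X) := by
    intro x
    ext c
    rcases zero_or_unit c with rfl | ⟨w, rfl⟩
    · constructor
      · intro h0
        rw [(hs.2.2.1 1).unique h0 he]; exact he'
      · intro h0
        rw [(hs'.2.2.1 1).unique h0 he']; exact he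
    · have h1 := hs.betaOf_mkO he hee x (e * w)
      have h2 := hs'.betaOf_mkO he' hee x (e * w)
      rw [h] at h1
      have h3 := h1.symm.trans h2
      unfold relOf at h3
      rwa [← mul_assoc, hee, one_mul] at h3
  ext c
  rw [hs.scale u⁻¹, hs'.scale u⁻¹, ← Units.val_mul, ← Units.val_mul, inv_mul_cancel,
    Units.val_one, hone]

open Classical in
theorem fullPre_card :
    ((univ : Finset (X → X → Set X)).filter (fun s => FullPre s)).card ≤
      ∑ e : Xˣ, (allTrue (lineOrb e)).card := by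
  have h1 : ((univ : Finset (X → X → Set X)).filter (fun s => FullPre s)) ⊆
      (univ : Finset Xˣ).biUnion (fun e => (univ : Finset (X → X → Set X)).filter
        (fun s => FullPre s ∧ (0 : X) ∈ s 1 (e : X) ∧ e * e = 1)) := by
    intro s hs
    rw [mem_filter] at hs
    obtain ⟨e, he, hee⟩ := hs.2.exists_neg
    rw [mem_biUnion]
    exact ⟨e, mem_univ _, by rw [mem_filter]; exact ⟨mem_univ _, hs.2, he, hee⟩⟩
  refine le_trans (card_le_card h1) (le_trans card_biUnion_le ?_)
  apply Finset.sum_le_sum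
  intro e _
  apply Finset.card_le_card_of_injOn (fun s => betaOf s e)
  · intro s hs
    rw [mem_coe, mem_filter] at hs
    obtain ⟨-, hs, he, hee⟩ := hs
    rw [mem_coe]
    simp only [allTrue, mem_filter, mem_univ, true_and, lineOrb, mem_image,
      forall_exists_index, forall_apply_eq_imp_iff]
    intro y
    rw [hs.betaOf_mkO he hee]
    unfold relOf
    rw [hs.2.2.2.2.2 _ he]
    trivial
  · intro s hs s' hs' h
    rw [mem_coe, mem_filter] at hs hs'
    exact hs.2.1.ext hs'.2.1 hs.2.2.1 hs'.2.2.1 hs.2.2.2 h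

open Classical in
theorem hypAdd_card :
    ((univ : Finset (Orb Xˣ → Bool)).filter (fun β => Good β)).card ≤
      ((univ : Finset (X → X → Set X)).filter (fun s => HypAdd s)).card := by
  apply Finset.card_le_card_of_injOn (fun β => addOf β)
  · intro β hβ
    rw [mem_coe, mem_filter] at hβ ⊢
    exact ⟨mem_univ _, addOf_hyp β hβ.2⟩
  · intro β _ β' _ h
    exact addOf_injective h

end

end Pool.Agent.helper53.HF
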