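import Mathlib
import Pool.Agent.helper53.HF.Struct

/-! Comparison of the numbers of hyperadditions on a fixed group with zero, and small
generating sets. -/

set_option autoImplicit false

namespace Pool.Agent.helper53.HF

open Finset

section
variable {X : Type} [CommGroupWithZero X] [Fintype X] [DecidableEq X]

open Classical in
theorem hypAdd_ge (r : ℕ) (hr : Fintype.card X = r + 1)
    (hcond : (r : ℝ) ^ 3 * (3 / 4 : ℝ) ^ ((r : ℝ) / 24) ≤ 1 / 2) :
    (2 : ℝ) ^ Fintype.card (Orb Xˣ) / 2 ≤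
      (((univ : Finset (X → X → Set X)).filter (fun s => HypAdd s)).card : ℝ) := by
  have hc : Fintype.card Xˣ = r := by
    rw [Fintype.card_units, hr]; rfl
  have h := good_card (A := Xˣ) (by rw [hc]; exact hcond)
  refine le_trans h ?_
  exact_mod_cast hypAdd_card (X := X)

open Classical in
theorem hypAdd_lower (r : ℕ) (hr : Fintype.card X = r + 1)
    (hcond : (r : ℝ) ^ 3 * (3 / 4 : ℝ) ^ ((r : ℝ) / 24) ≤ 1 / 2) :
    (2 : ℝ) ^ ((r : ℝ) ^ 2 / 6) / 2 ≤
      (((univ : Finset (X → X → Set X)).filter (fun s => HypAdd s)).card : ℝ) := by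
  refine le_trans ?_ (hypAdd_ge r hr hcond)
  have hc : Fintype.card Xˣ = r := by
    rw [Fintype.card_units, hr]; rfl
  have h := card_orb_ge (A := Xˣ)
  rw [hc] at h
  have h1 : ((r : ℝ) ^ 2 / 6) ≤ (Fintype.card (Orb Xˣ) : ℝ) := by
    rw [div_le_iff₀ (by norm_num)]
    exact_mod_cast h
  have h2 : (2 : ℝ) ^ ((r : ℝ) ^ 2 / 6) ≤ (2 : ℝ) ^ Fintype.card (Orb Xˣ) := by
    rw [← Real.rpow_natCast 2 (Fintype.card (Orb Xˣ))]
    exact Real.rpow_le_rpow_of_exponent_le (by norm_num : (1 : ℝ) ≤ 2) h1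
  linarith

open Classical in
theorem ratio_bound (r : ℕ) (hr : Fintype.card X = r + 1)
    (hcond : (r : ℝ) ^ 3 * (3 / 4 : ℝ) ^ ((r : ℝ) / 24) ≤ 1 / 2) :
    (((univ : Finset (X → X → Set X)).filter (fun s => FullPre s)).card : ℝ) *
      (2 : ℝ) ^ ((r : ℝ) / 6) ≤
      2 * r * (((univ : Finset (X → X → Set X)).filter (fun s => HypAdd s)).card : ℝ) := by
  have hc : Fintype.card Xˣ = r := by
    rw [Fintype.card_units, hr]; rfl
  have h1 := hypAdd_ge (X := X) r hr hcond
  set T : ℝ := (2 : ℝ) ^ Fintype.card (Orb Xˣ) with hT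
  have h2 : ∀ e : Xˣ, ((allTrue (lineOrb e)).card : ℝ) * (2 : ℝ) ^ ((r : ℝ) / 6) ≤ T := by
    intro e
    have ha := allTrue_card (lineOrb e)
    have hb := lineOrb_card e
    rw [hc] at hb
    have hb' : (r : ℝ) / 6 ≤ ((lineOrb e).card : ℝ) := by
      rw [div_le_iff₀ (by norm_num)]
      exact_mod_cast hb
    have h3 : (2 : ℝ) ^ ((r : ℝ) / 6) ≤ (2 : ℝ) ^ (lineOrb e).card := by
      rw [← Real.rpow_natCast]
      exact Real.rpow_le_rpow_of_exponent_le (by norm_num : (1 : ℝ) ≤ 2) hb'
    calc ((allTrue (lineOrb e)).card : ℝ) * (2 : ℝ) ^ ((r : ℝ) / 6)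
        ≤ ((allTrue (lineOrb e)).card : ℝ) * (2 : ℝ) ^ (lineOrb e).card :=
          mul_le_mul_of_nonneg_left h3 (Nat.cast_nonneg _)
      _ ≤ T := by rw [hT]; exact_mod_cast ha
  have h3 : (((univ : Finset (X → X → Set X)).filter (fun s => FullPre s)).card : ℝ) ≤
      ∑ e : Xˣ, ((allTrue (lineOrb e)).card : ℝ) := by
    exact_mod_cast fullPre_card (X := X)
  calc (((univ : Finset (X → X → Set X)).filter (fun s => FullPre s)).card : ℝ) *
      (2 : ℝ) ^ ((r : ℝ) / 6)
      ≤ (∑ e : Xˣ, ((allTrue (lineOrb e)).card : ℝ)) * (2 : ℝ) ^ ((r : ℝ) / 6) :=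
        mul_le_mul_of_nonneg_right h3 (by positivity)
    _ = ∑ e : Xˣ, ((allTrue (lineOrb e)).card : ℝ) * (2 : ℝ) ^ ((r : ℝ) / 6) := by
        rw [Finset.sum_mul]
    _ ≤ ∑ _e : Xˣ, T := Finset.sum_le_sum (fun e _ => h2 e)
    _ = r * T := by
        rw [Finset.sum_const, nsmul_eq_mul, card_univ, hc]
    _ ≤ r * (2 * (((univ : Finset (X → X → Set X)).filter (fun s => HypAdd s)).card : ℝ)) := by
        apply mul_le_mul_of_nonneg_left _ (Nat.cast_nonneg _)
        linarith
    _ = _ := by ring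

end

/-- Every finite group has a generating set of logarithmic size. -/
theorem exists_gen (A : Type*) [Group A] [Finite A] :
    ∃ S : Finset A, Subgroup.closure (S : Set A) = ⊤ ∧ 2 ^ S.card ≤ Nat.card A := by
  classical
  have : Fintype A := Fintype.ofFinite A
  -- maximise the size of the closure
  obtain ⟨S, hS, hmax⟩ := Finset.exists_max_image
    ((univ : Finset (Finset A)).filter
      (fun S : Finset A => 2 ^ S.card ≤ Nat.card (Subgroup.closure (S : Set A))))
    (fun S : Finset A => Nat.card (Subgroup.closure (S : Set A)))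
    ⟨∅, by simp⟩
  rw [mem_filter] at hS
  have hS2 := hS.2
  refine ⟨S, ?_, le_trans hS2 (Subgroup.card_le_card_group _)⟩
  by_contra hne
  have hlt : Subgroup.closure (S : Set A) < ⊤ := lt_top_iff_ne_top.2 hne
  obtain ⟨g, -, hg⟩ := SetLike.exists_of_lt hlt
  have hle : Subgroup.closure (S : Set A) ≤ Subgroup.closure ((insert g S : Finset A) : Set A) := by
    apply Subgroup.closure_mono
    intro x hx
    rw [mem_coe] at hx ⊢
    exact mem_insert_of_mem hx
  have hgmem : g ∈ Subgroup.closure ((insert g S : Finset A) : Set A) :=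
    Subgroup.subset_closure (by rw [mem_coe]; exact mem_insert_self _ _)
  have hdvd : Nat.card (Subgroup.closure (S : Set A)) ∣
      Nat.card (Subgroup.closure ((insert g S : Finset A) : Set A)) :=
    Subgroup.card_dvd_of_le hle
  have hneq : Nat.card (Subgroup.closure (S : Set A)) ≠
      Nat.card (Subgroup.closure ((insert g S : Finset A) : Set A)) := by
    intro heq
    have := Subgroup.eq_of_le_of_card_ge hle heq.symm.le
    rw [← this] at hgmem
    exact hg hgmem
  obtain ⟨k, hk⟩ := hdvd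
  have hpos : 0 < Nat.card (Subgroup.closure ((insert g S : Finset A) : Set A)) :=
    Nat.card_pos
  have hpos' : 0 < Nat.card (Subgroup.closure (S : Set A)) := Nat.card_pos
  have hk2 : 2 ≤ k := by
    rcases Nat.lt_or_ge k 2 with h | h
    · interval_cases k
      · omega
      · exact absurd (by rw [hk, mul_one]) hneq
    · exact h
  have hdouble : 2 * Nat.card (Subgroup.closure (S : Set A)) ≤
      Nat.card (Subgroup.closure ((insert g S : Finset A) : Set A)) := by
    rw [hk, mul_comm]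
    exact Nat.mul_le_mul_left _ hk2
  have hcardle : (insert g S).card ≤ S.card + 1 := card_insert_le _ _
  have hmem : insert g S ∈ ((univ : Finset (Finset A)).filter
      (fun S : Finset A => 2 ^ S.card ≤ Nat.card (Subgroup.closure (S : Set A)))) := by
    rw [mem_filter]
    refine ⟨mem_univ _, ?_⟩
    calc 2 ^ (insert g S).card ≤ 2 ^ (S.card + 1) := Nat.pow_le_pow_right (by norm_num) hcardle
      _ = 2 * 2 ^ S.card := by ring
      _ ≤ 2 * Nat.card (Subgroup.closure (S : Set A)) := Nat.mul_le_mul_left _ hS2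
      _ ≤ _ := hdouble
  have := hmax _ hmem
  omega

end Pool.Agent.helper53.HF
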