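import Mathlib
import Pool.Agent.helper53.HF.Infinite
import Pool.Agent.helper53.HF.Finite
import Pool.Agent.helper53.HF.Ratio

/-! Labelled structures on `Fin (r + 1)`, quotient structures. -/

set_option autoImplicit false

namespace Pool.Agent.helper53.HF

/-- Labelled pairs (multiplication, hyperaddition). -/
abbrev Str (r : ℕ) : Type :=
  (Fin (r+1) → Fin (r+1) → Fin (r+1)) × (Fin (r+1) → Fin (r+1) → Set (Fin (r+1)))

/-- `p` is the quotient of the field `K` by `G` along `f`. -/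
def Rep {r : ℕ} (K : Type) [Field K] (G : Subgroup Kˣ) (f : K → Fin (r+1)) (p : Str r) : Prop :=
  Function.Surjective f ∧ f 0 = 0 ∧
    (∀ x y : K, f x = f y ↔ ∃ g ∈ G, y = x * (g : K)) ∧
    (∀ x y : K, f (x * y) = p.1 (f x) (f y)) ∧
    (∀ x y : K, p.2 (f x) (f y) = {z | ∃ g ∈ G, ∃ h ∈ G, z = f (x * (g : K) + y * (h : K))})

/-- Quotient hyperfields. -/
def IsQuot {r : ℕ} (p : Str r) : Prop :=
  ∃ (K : Type) (_ : Field K), ∃ G : Subgroup Kˣ, ∃ f : K → Fin (r+1), Rep K G f p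

/-- Multiplications which make `Fin (r + 1)` a commutative group with zero. -/
def IsMul {r : ℕ} (m : Fin (r+1) → Fin (r+1) → Fin (r+1)) : Prop :=
  (∃ u : Fin (r+1), u ≠ 0 ∧ ∀ a, m u a = a) ∧
  (∀ a b, m a b = m b a) ∧
  (∀ a b c, m (m a b) c = m a (m b c)) ∧
  (∀ a, m 0 a = 0) ∧
  (∀ a b, a ≠ 0 → b ≠ 0 → m a b ≠ 0) ∧
  (∀ a, a ≠ 0 → ∃ b, ∀ c, m (m a b) c = c)

/-- Hyperaddition axioms relative to the multiplication `m`. -/
def HypAdd' {r : ℕ} (m : Fin (r+1) → Fin (r+1) → Fin (r+1))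
    (s : Fin (r+1) → Fin (r+1) → Set (Fin (r+1))) : Prop :=
  (∀ a b, (s a b).Nonempty) ∧
  (∀ a b, s a b = s b a) ∧
  (∀ a b c, (⋃ x ∈ s a b, s x c) = ⋃ x ∈ s b c, s a x) ∧
  (∀ a, s 0 a = {a}) ∧
  (∀ a, ∃! b, (0 : Fin (r+1)) ∈ s a b) ∧
  (∀ a b c d, a ∈ s b c → (0 : Fin (r+1)) ∈ s b d → c ∈ s a d) ∧
  (∀ a b c, (fun x => m a x) '' s b c = s (m a b) (m a c))

/-- Weak axioms and `1 - 1` is everything. -/
def FullPre' {r : ℕ} (m : Fin (r+1) → Fin (r+1) → Fin (r+1))
    (s : Fin (r+1) → Fin (r+1) → Set (Fin (r+1))) : Prop :=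
  (∀ a b, s a b = s b a) ∧
  (∀ a, s 0 a = {a}) ∧
  (∀ a, ∃! b, (0 : Fin (r+1)) ∈ s a b) ∧
  (∀ a b c d, a ∈ s b c → (0 : Fin (r+1)) ∈ s b d → c ∈ s a d) ∧
  (∀ a b c, (fun x => m a x) '' s b c = s (m a b) (m a c)) ∧
  (∀ u, (∀ a, m u a = a) → ∀ b, (0 : Fin (r+1)) ∈ s u b → s u b = Set.univ)

/-- Hyperfields. -/
def IsHyp {r : ℕ} (p : Str r) : Prop := IsMul p.1 ∧ HypAdd' p.1 p.2

/-- Isomorphism of labelled structures. -/
def Iso {r : ℕ} (p q : Str r) : Prop :=
  ∃ e : Fin (r+1) ≃ Fin (r+1), ∀ a b, e (p.1 a b) = q.1 (e a) (e b) ∧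
    e '' p.2 a b = q.2 (e a) (e b)

section rep
variable {r : ℕ} {K : Type} [Field K] {G : Subgroup Kˣ} {f : K → Fin (r+1)} {p : Str r}

theorem Rep.eq_zero (h : Rep K G f p) {x : K} (hx : f x = 0) : x = 0 := by
  rw [← h.2.1] at hx
  obtain ⟨g, -, hg⟩ := (h.2.2.1 _ _).1 hx
  rcases mul_eq_zero.1 hg.symm with h | h
  · exact h
  · exact absurd h g.ne_zero

theorem Rep.ne_zero (h : Rep K G f p) {x : K} (hx : x ≠ 0) : f x ≠ 0 :=
  fun h0 => hx (h.eq_zero h0)

theorem Rep.isMul (h : Rep K G f p) : IsMul p.1 := by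
  have hs := h.1
  have h0 := h.2.1
  have hm := h.2.2.2.1
  refine ⟨⟨f 1, h.ne_zero one_ne_zero, ?_⟩, ?_, ?_, ?_, ?_, ?_⟩
  · intro a
    obtain ⟨x, rfl⟩ := hs a
    rw [← hm, one_mul]
  · intro a b
    obtain ⟨x, rfl⟩ := hs a
    obtain ⟨y, rfl⟩ := hs b
    rw [← hm, ← hm, mul_comm]
  · intro a b c
    obtain ⟨x, rfl⟩ := hs a
    obtain ⟨y, rfl⟩ := hs b
    obtain ⟨z, rfl⟩ := hs c
    rw [← hm, ← hm, ← hm, ← hm, mul_assoc]
  · intro a
    obtain ⟨x, rfl⟩ := hs a
    rw [← h0, ← hm, zero_mul]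
  · intro a b ha hb
    obtain ⟨x, rfl⟩ := hs a
    obtain ⟨y, rfl⟩ := hs b
    rw [← hm]
    apply h.ne_zero
    apply mul_ne_zero
    · rintro rfl; exact ha h0
    · rintro rfl; exact hb h0
  · intro a ha
    obtain ⟨x, rfl⟩ := hs a
    have hx : x ≠ 0 := by rintro rfl; exact ha h0
    refine ⟨f x⁻¹, fun c => ?_⟩
    obtain ⟨z, rfl⟩ := hs c
    rw [← hm, ← hm, mul_inv_cancel₀ hx, one_mul]

theorem Rep.fullPre (h : Rep K G f p) (hfull : ∀ t : K, ∃ g ∈ G, ∃ h ∈ G, t = (g : K) - (h : K)) :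
    FullPre' p.1 p.2 := by
  have hs := h.1
  have h0 := h.2.1
  have hf := h.2.2.1
  have hm := h.2.2.2.1
  have ha := h.2.2.2.2
  have hzero : ∀ x y : K, (0 : Fin (r+1)) ∈ p.2 (f x) (f y) ↔
      ∃ g ∈ G, ∃ h ∈ G, x * (g : K) + y * (h : K) = 0 := by
    intro x y
    rw [ha]
    constructor
    · rintro ⟨g, hg, k, hk, hz⟩
      exact ⟨g, hg, k, hk, h.eq_zero hz.symm⟩
    · rintro ⟨g, hg, k, hk, hz⟩
      exact ⟨g, hg, k, hk, by rw [hz, h0]⟩
  refine ⟨?_, ?_, ?_, ?_, ?_, ?_⟩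
  · intro a b
    obtain ⟨x, rfl⟩ := hs a
    obtain ⟨y, rfl⟩ := hs b
    rw [ha, ha]
    ext z
    constructor
    · rintro ⟨g, hg, k, hk, hz⟩
      exact ⟨k, hk, g, hg, hz.trans (congrArg f (add_comm _ _))⟩
    · rintro ⟨g, hg, k, hk, hz⟩
      exact ⟨k, hk, g, hg, hz.trans (congrArg f (add_comm _ _))⟩
  · intro a
    obtain ⟨x, rfl⟩ := hs a
    rw [← h0, ha]
    ext z
    constructor
    · rintro ⟨g, hg, k, hk, hz⟩
      rw [Set.mem_singleton_iff, hz, zero_mul, zero_add]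
      exact ((hf x (x * k)).2 ⟨k, hk, rfl⟩).symm
    · intro hz
      rw [Set.mem_singleton_iff] at hz
      exact ⟨1, G.one_mem, 1, G.one_mem, by rw [hz]; simp⟩
  · intro a
    obtain ⟨x, rfl⟩ := hs a
    refine ⟨f (-x), ?_, ?_⟩
    · simp only
      rw [hzero]
      exact ⟨1, G.one_mem, 1, G.one_mem, by simp⟩
    · intro b hb
      obtain ⟨y, rfl⟩ := hs b
      rw [hzero] at hb
      obtain ⟨g, hg, k, hk, hz⟩ := hb
      have hk0 : (k : K) ≠ 0 := k.ne_zero
      rw [hf]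
      refine ⟨k * g⁻¹, G.mul_mem hk (G.inv_mem hg), ?_⟩
      have hg0 : (g : K) ≠ 0 := g.ne_zero
      rw [Units.val_mul, Units.val_inv_eq_inv_val]
      field_simp
      linear_combination (-1 : K) * hz
  · intro a b c d hab hbd
    obtain ⟨x, rfl⟩ := hs b
    obtain ⟨y, rfl⟩ := hs c
    obtain ⟨w, rfl⟩ := hs d
    rw [hzero] at hbd
    rw [ha] at hab
    obtain ⟨g, hg, k, hk, rfl⟩ := hab
    obtain ⟨g', hg', k', hk', hz⟩ := hbd
    rw [ha]
    refine ⟨1, G.one_mem, g * g'⁻¹ * k', G.mul_mem (G.mul_mem hg (G.inv_mem hg')) hk', ?_⟩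
    have hg0 : (g' : K) ≠ 0 := g'.ne_zero
    have : (x * (g : K) + y * (k : K)) * ((1 : Kˣ) : K) + w * ((g * g'⁻¹ * k' : Kˣ) : K) =
        y * (k : K) := by
      rw [Units.val_mul, Units.val_mul, Units.val_inv_eq_inv_val, Units.val_one]
      field_simp
      linear_combination (g : K) * hz
    rw [this, hf]
    exact ⟨k, hk, rfl⟩
  · intro a b c
    obtain ⟨w, rfl⟩ := hs a
    obtain ⟨x, rfl⟩ := hs b
    obtain ⟨y, rfl⟩ := hs c
    rw [← hm, ← hm, ha, ha]
    ext z
    constructor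
    · rintro ⟨z', ⟨g, hg, k, hk, rfl⟩, rfl⟩
      refine ⟨g, hg, k, hk, ?_⟩
      simp only
      rw [← hm]
      congr 1
      ring
    · rintro ⟨g, hg, k, hk, rfl⟩
      refine ⟨f (x * g + y * k), ⟨g, hg, k, hk, rfl⟩, ?_⟩
      simp only
      rw [← hm]
      congr 1
      ring
  · intro u hu b hb
    have hu1 : u = f 1 := by
      have h1 := hu (f 1)
      obtain ⟨x, rfl⟩ := hs u
      rw [← hm, mul_one] at h1
      exact h1
    subst hu1
    obtain ⟨y, rfl⟩ := hs b
    rw [hzero] at hb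
    obtain ⟨g, hg, k, hk, hz⟩ := hb
    ext z
    simp only [Set.mem_univ, iff_true]
    obtain ⟨t, rfl⟩ := hs z
    obtain ⟨g2, hg2, h2, hh2, ht⟩ := hfull t
    rw [ha]
    refine ⟨g2, hg2, h2 * g⁻¹ * k, G.mul_mem (G.mul_mem hh2 (G.inv_mem hg)) hk, ?_⟩
    congr 1
    rw [ht, Units.val_mul, Units.val_mul, Units.val_inv_eq_inv_val]
    have hg0 : (g : K) ≠ 0 := g.ne_zero
    field_simp
    linear_combination (-(h2 : K)) * hz

theorem Rep.index (h : Rep K G f p) : G.index = r := by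
  have hs := h.1
  have h0 := h.2.1
  have hf := h.2.2.1
  have e : (Kˣ ⧸ G) ≃ {z : Fin (r+1) // z ≠ 0} := by
    refine Equiv.ofBijective (fun c => ⟨f ((Quotient.out c : Kˣ) : K),
      h.ne_zero (Units.ne_zero _)⟩) ⟨?_, ?_⟩
    · intro c c' hcc
      simp only [Subtype.mk.injEq] at hcc
      obtain ⟨g, hg, hgg⟩ := (hf _ _).1 hcc
      have : (Quotient.out c' : Kˣ) = Quotient.out c * g := Units.ext (by rw [hgg]; simp)
      rw [← QuotientGroup.out_eq' c, ← QuotientGroup.out_eq' c', QuotientGroup.eq]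
      rw [this]
      simpa using hg
    · rintro ⟨z, hz⟩
      obtain ⟨x, rfl⟩ := hs z
      have hx : x ≠ 0 := by rintro rfl; exact hz h0
      refine ⟨QuotientGroup.mk (Units.mk0 x hx), ?_⟩
      simp only [Subtype.mk.injEq]
      obtain ⟨g, hg⟩ := QuotientGroup.mk_out_eq_mul G (Units.mk0 x hx)
      rw [hg]
      exact ((hf x _).2 ⟨g, g.2, by simp⟩).symm
  have h1 : G.index = Nat.card {z : Fin (r+1) // z ≠ 0} := by
    rw [Subgroup.index]
    exact Nat.card_congr e
  rw [h1]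
  simp

theorem Rep.card (h : Rep K G f p) [Finite K] : Nat.card G * r + 1 = Nat.card K := by
  have h1 := Subgroup.card_mul_index G
  rw [h.index] at h1
  have h2 : Nat.card Kˣ = Nat.card K - 1 := Nat.card_units K
  have h3 : 0 < Nat.card K := Nat.card_pos
  omega

/-- Either the field is small or the quotient is full. -/
theorem Rep.small_or_full (h : Rep K G f p) :
    (Finite K ∧ Nat.card K ≤ 16 * r ^ 4) ∨ FullPre' p.1 p.2 := by
  rcases finite_or_infinite K with hfin | hinf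
  · by_cases hK : Nat.card K ≤ 16 * r ^ 4
    · exact Or.inl ⟨hfin, hK⟩
    · right
      apply h.fullPre
      apply diff_finite
      have h1 := h.card
      push Not at hK
      have h2 : 1 < Nat.card K := Finite.one_lt_card
      have h3 : Nat.card K ≤ 2 * (Nat.card G * r) := by omega
      have h4 : (Nat.card K) ^ 4 ≤ (2 * (Nat.card G * r)) ^ 4 := Nat.pow_le_pow_left h3 4
      have h5 : (16 * r ^ 4) * (Nat.card K) ^ 3 ≤ (16 * r ^ 4) * (Nat.card G) ^ 4 := by
        calc (16 * r ^ 4) * (Nat.card K) ^ 3 ≤ (Nat.card K) * (Nat.card K) ^ 3 :=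
              Nat.mul_le_mul_right _ hK.le
          _ = (Nat.card K) ^ 4 := by ring
          _ ≤ (2 * (Nat.card G * r)) ^ 4 := h4
          _ = (16 * r ^ 4) * (Nat.card G) ^ 4 := by ring
      have hr : 0 < r := by
        rcases Nat.eq_zero_or_pos r with h0 | h0
        · subst h0; omega
        · exact h0
      exact Nat.le_of_mul_le_mul_left h5 (by positivity)
  · right
    exact h.fullPre (diff_infinite G f h.1 h.2.2.1)

end rep

/-- In a finite field, a subgroup of the units of order `n` is the set of `n`-th roots of 1. -/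
theorem mem_subgroup_iff {K : Type} [Field K] [Finite K] (G : Subgroup Kˣ) (x : Kˣ) :
    x ∈ G ↔ x ^ Nat.card G = 1 := by
  classical
  have : Fintype K := Fintype.ofFinite K
  have hG : 0 < Nat.card G := Nat.card_pos
  constructor
  · intro hx
    have := congrArg (fun t : G => (t : Kˣ)) (pow_card_eq_one' (x := (⟨x, hx⟩ : G)))
    simpa only [Subgroup.coe_pow, Subgroup.coe_one] using this
  · intro hx
    have hsub : (Finset.univ.filter (fun y : Kˣ => y ∈ G)) ⊆
        (Finset.univ.filter (fun y : Kˣ => y ^ Nat.card G = 1)) := by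
      intro y hy
      rw [Finset.mem_filter] at hy ⊢
      refine ⟨hy.1, ?_⟩
      have := congrArg (fun t : G => (t : Kˣ)) (pow_card_eq_one' (x := (⟨y, hy.2⟩ : G)))
      simpa only [Subgroup.coe_pow, Subgroup.coe_one] using this
    have hcard : (Finset.univ.filter (fun y : Kˣ => y ^ Nat.card G = 1)).card ≤
        (Finset.univ.filter (fun y : Kˣ => y ∈ G)).card := by
      have h1 := IsCyclic.card_pow_eq_one_le (α := Kˣ) hG
      have h2 : (Finset.univ.filter (fun y : Kˣ => y ∈ G)).card = Nat.card G := by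
        rw [Nat.card_eq_fintype_card, Fintype.card_subtype]
      rw [h2]
      exact h1
    have heq := Finset.eq_of_subset_of_card_le hsub hcard
    have : x ∈ (Finset.univ.filter (fun y : Kˣ => y ^ Nat.card G = 1)) := by
      rw [Finset.mem_filter]; exact ⟨Finset.mem_univ _, hx⟩
    rw [← heq] at this
    exact (Finset.mem_filter.1 this).2

theorem iso_of_card_eq {r : ℕ} (hr : 0 < r) {K K' : Type} [Field K] [Field K'] [Finite K]
    [Finite K'] {G : Subgroup Kˣ} {G' : Subgroup K'ˣ} {f : K → Fin (r+1)} {f' : K' → Fin (r+1)}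
    {p p' : Str r} (h : Rep K G f p) (h' : Rep K' G' f' p') (hcard : Nat.card K = Nat.card K') :
    Iso p p' := by
  classical
  have : Fintype K := Fintype.ofFinite K
  have : Fintype K' := Fintype.ofFinite K'
  have hGG : Nat.card G = Nat.card G' := by
    have h1 := h.card
    have h2 := h'.card
    have h3 : Nat.card G * r = Nat.card G' * r := by omega
    exact Nat.eq_of_mul_eq_mul_right hr h3
  let φ : K ≃+* K' := FiniteField.ringEquivOfCardEq (by
    rw [← Nat.card_eq_fintype_card, ← Nat.card_eq_fintype_card, hcard])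
  have hφG : ∀ g : Kˣ, g ∈ G ↔ Units.map (φ : K →* K') g ∈ G' := by
    intro g
    rw [mem_subgroup_iff, mem_subgroup_iff, ← hGG, ← map_pow]
    constructor
    · intro hg
      rw [hg, map_one]
    · intro hg
      apply Units.ext
      have := congrArg Units.val hg
      simp only [Units.coe_map, Units.val_one] at this
      apply φ.injective
      rw [Units.val_one, map_one]
      exact this
  have hfφ : ∀ x y : K, f x = f y ↔ f' (φ x) = f' (φ y) := by
    intro x y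
    rw [h.2.2.1, h'.2.2.1]
    constructor
    · rintro ⟨g, hg, rfl⟩
      exact ⟨Units.map (φ : K →* K') g, (hφG g).1 hg, by simp⟩
    · rintro ⟨g', hg', heq⟩
      refine ⟨Units.map (φ.symm : K' →* K) g', ?_, ?_⟩
      · rw [hφG]
        have : Units.map (φ : K →* K') (Units.map (φ.symm : K' →* K) g') = g' := by
          apply Units.ext
          simp
        rw [this]
        exact hg'
      · apply φ.injective
        rw [heq]
        simp
  obtain ⟨σ, hσ⟩ := h.1.hasRightInverse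
  have hkey : ∀ x : K, f' (φ (σ (f x))) = f' (φ x) := fun x => (hfφ _ _).1 (hσ (f x))
  let e : Fin (r+1) ≃ Fin (r+1) := Equiv.ofBijective (fun z => f' (φ (σ z))) (by
    rw [← Finite.injective_iff_bijective]
    intro z z' hz
    have := (hfφ _ _).2 hz
    rwa [hσ, hσ] at this)
  have he : ∀ x : K, e (f x) = f' (φ x) := hkey
  refine ⟨e, fun a b => ?_⟩
  obtain ⟨x, rfl⟩ := h.1 a
  obtain ⟨y, rfl⟩ := h.1 b
  constructor
  · rw [← h.2.2.2.1, he, he, he, ← h'.2.2.2.1, map_mul]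
  · rw [h.2.2.2.2, he, he, h'.2.2.2.2]
    ext z
    constructor
    · rintro ⟨w, ⟨g, hg, k, hk, rfl⟩, rfl⟩
      refine ⟨Units.map (φ : K →* K') g, (hφG g).1 hg, Units.map (φ : K →* K') k,
        (hφG k).1 hk, ?_⟩
      rw [he]
      simp
    · rintro ⟨g', hg', k', hk', rfl⟩
      have h1 : ∀ g' : K'ˣ, g' ∈ G' → Units.map (φ.symm : K' →* K) g' ∈ G := by
        intro g' hg'
        rw [hφG]
        have : Units.map (φ : K →* K') (Units.map (φ.symm : K' →* K) g') = g' := by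
          apply Units.ext
          simp
        rw [this]
        exact hg'
      refine ⟨f (x * ((Units.map (φ.symm : K' →* K) g' : Kˣ) : K) +
        y * ((Units.map (φ.symm : K' →* K) k' : Kˣ) : K)),
        ⟨_, h1 g' hg', _, h1 k' hk', rfl⟩, ?_⟩
      rw [he]
      simp

end Pool.Agent.helper53.HF
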