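import Mathlib
import Pool.Agent.helper53.HF.Quot

/-! From labelled structures to isomorphism classes. -/

set_option autoImplicit false

namespace Pool.Agent.helper53.HF

open Finset

variable {r : ℕ}

/-- Build a commutative group with zero. -/
@[reducible] noncomputable def mkGWZ {X : Type} (m : X → X → X) (z u : X) (hu : u ≠ z)
    (hone : ∀ a, m u a = a) (hcomm : ∀ a b, m a b = m b a)
    (hassoc : ∀ a b c, m (m a b) c = m a (m b c)) (hz : ∀ a, m z a = z)
    (hinv : ∀ a, a ≠ z → ∃ b, ∀ c, m (m a b) c = c) : CommGroupWithZero X where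
  mul := m
  mul_assoc := hassoc
  mul_comm := hcomm
  one := u
  one_mul := hone
  mul_one := fun a => (hcomm a _).trans (hone a)
  zero := z
  zero_mul := hz
  mul_zero := fun a => (hcomm a z).trans (hz a)
  inv := fun a => open Classical in if ha : a = z then z else (hinv a ha).choose
  inv_zero := by
    classical
    exact dif_pos rfl
  exists_pair_ne := ⟨u, z, hu⟩
  mul_inv_cancel := by
    classical
    intro a ha
    have ha' : a ≠ z := ha
    have h1 := (hinv a ha').choose_spec u
    have h2 : m (m a (hinv a ha').choose) u = m a (hinv a ha').choose := by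
      rw [hcomm]
      exact hone _
    rw [h2] at h1
    have h3 : m a (if ha : a = z then z else (hinv a ha).choose) = u := by
      rw [dif_neg ha']
      exact h1
    exact h3

/-- The commutative group with zero on `Fin (r + 1)` given by `m`. -/
@[reducible] noncomputable def gwz {m : Fin (r+1) → Fin (r+1) → Fin (r+1)} (h : IsMul m) :
    CommGroupWithZero (Fin (r+1)) :=
  mkGWZ m 0 h.1.choose h.1.choose_spec.1 h.1.choose_spec.2 h.2.1 h.2.2.1 h.2.2.2.1
    h.2.2.2.2.2

theorem hypAdd_iff {m : Fin (r+1) → Fin (r+1) → Fin (r+1)} (h : IsMul m)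
    (s : Fin (r+1) → Fin (r+1) → Set (Fin (r+1))) :
    HypAdd' m s ↔ @HypAdd (Fin (r+1)) (gwz h) s := Iff.rfl

theorem fullPre_iff {m : Fin (r+1) → Fin (r+1) → Fin (r+1)} (h : IsMul m)
    (s : Fin (r+1) → Fin (r+1) → Set (Fin (r+1))) :
    FullPre' m s ↔ @FullPre (Fin (r+1)) (gwz h) s := by
  constructor
  · intro hs
    exact ⟨hs.1, hs.2.1, hs.2.2.1, hs.2.2.2.1, hs.2.2.2.2.1,
      hs.2.2.2.2.2 h.1.choose h.1.choose_spec.2⟩
  · intro hs
    refine ⟨hs.1, hs.2.1, hs.2.2.1, hs.2.2.2.1, hs.2.2.2.2.1, ?_⟩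
    intro u hu b hb
    have hu' : u = h.1.choose := by
      have h1 := hu h.1.choose
      rw [h.2.1, h.1.choose_spec.2] at h1
      exact h1
    subst hu'
    exact hs.2.2.2.2.2 b hb

/-- Weak structures which are full. -/
def IsFull (p : Str r) : Prop := IsMul p.1 ∧ FullPre' p.1 p.2

section counts

open Classical in
theorem card_pairs (P : (Fin (r+1) → Fin (r+1) → Fin (r+1)) → Prop)
    (Q : (Fin (r+1) → Fin (r+1) → Fin (r+1)) →
      (Fin (r+1) → Fin (r+1) → Set (Fin (r+1))) → Prop)
    (R : Str r → Prop) (hR : ∀ p, R p ↔ P p.1 ∧ Q p.1 p.2) :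
    ((univ : Finset (Str r)).filter (fun p => R p)).card =
      ∑ m ∈ (univ : Finset (Fin (r+1) → Fin (r+1) → Fin (r+1))).filter P,
        ((univ : Finset (Fin (r+1) → Fin (r+1) → Set (Fin (r+1)))).filter (Q m)).card := by
  rw [Finset.card_filter, Fintype.sum_prod_type, Finset.sum_filter]
  apply Finset.sum_congr rfl
  intro m _
  by_cases hP : P m
  · rw [if_pos hP, Finset.card_filter]
    apply Finset.sum_congr rfl
    intro s _
    by_cases hQ : Q m s
    · rw [if_pos hQ, if_pos ((hR (m, s)).2 ⟨hP, hQ⟩)]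
    · rw [if_neg hQ, if_neg (fun h => hQ ((hR (m, s)).1 h).2)]
  · rw [if_neg hP]
    apply Finset.sum_eq_zero
    intro s _
    rw [if_neg (fun h => hP ((hR (m, s)).1 h).1)]

open Classical in
theorem labelled_ratio
    (hcond : (r : ℝ) ^ 3 * (3 / 4 : ℝ) ^ ((r : ℝ) / 24) ≤ 1 / 2) :
    (((univ : Finset (Str r)).filter (fun p => IsFull p)).card : ℝ) *
      (2 : ℝ) ^ ((r : ℝ) / 6) ≤
      2 * r * (((univ : Finset (Str r)).filter (fun p => IsHyp p)).card : ℝ) := by
  have h1 : ((univ : Finset (Str r)).filter (fun p => IsHyp p)).card =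
      ∑ m ∈ (univ : Finset (Fin (r+1) → Fin (r+1) → Fin (r+1))).filter IsMul,
        ((univ : Finset (Fin (r+1) → Fin (r+1) → Set (Fin (r+1)))).filter (HypAdd' m)).card :=
    card_pairs IsMul HypAdd' _ (fun _ => Iff.rfl)
  have h2 := card_pairs (r := r) IsMul FullPre' (fun p => IsFull p)
    (fun _ => Iff.rfl)
  rw [h1, h2]
  push_cast
  rw [Finset.sum_mul, Finset.mul_sum]
  apply Finset.sum_le_sum
  intro m hm
  rw [mem_filter] at hm
  have h3 := @ratio_bound (Fin (r+1)) (gwz hm.2) _ _ r (by simp) hcond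
  have e1 : (univ : Finset (Fin (r+1) → Fin (r+1) → Set (Fin (r+1)))).filter (FullPre' m) =
      (univ : Finset (Fin (r+1) → Fin (r+1) → Set (Fin (r+1)))).filter
        (fun s => @FullPre (Fin (r+1)) (gwz hm.2) s) := by
    ext s
    rw [mem_filter, mem_filter, fullPre_iff hm.2]
  rw [e1]
  exact h3

open Classical in
theorem labelled_lower
    (hcond : (r : ℝ) ^ 3 * (3 / 4 : ℝ) ^ ((r : ℝ) / 24) ≤ 1 / 2)
    (m : Fin (r+1) → Fin (r+1) → Fin (r+1)) (hm : IsMul m) :
    (2 : ℝ) ^ ((r : ℝ) ^ 2 / 6) / 2 ≤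
      (((univ : Finset (Str r)).filter (fun p => IsHyp p)).card : ℝ) := by
  have h1 : ((univ : Finset (Str r)).filter (fun p => IsHyp p)).card =
      ∑ m ∈ (univ : Finset (Fin (r+1) → Fin (r+1) → Fin (r+1))).filter IsMul,
        ((univ : Finset (Fin (r+1) → Fin (r+1) → Set (Fin (r+1)))).filter (HypAdd' m)).card :=
    card_pairs IsMul HypAdd' _ (fun _ => Iff.rfl)
  have h3 := @hypAdd_lower (Fin (r+1)) (gwz hm) _ _ r (by simp) hcond
  refine le_trans h3 ?_
  rw [h1]
  have h4 : ((univ : Finset (Fin (r+1) → Fin (r+1) → Set (Fin (r+1)))).filter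
      (HypAdd' m)).card ≤
      ∑ m ∈ (univ : Finset (Fin (r+1) → Fin (r+1) → Fin (r+1))).filter IsMul,
        ((univ : Finset (Fin (r+1) → Fin (r+1) → Set (Fin (r+1)))).filter (HypAdd' m)).card :=
    Finset.single_le_sum (f := fun m => ((univ : Finset (Fin (r+1) → Fin (r+1) →
      Set (Fin (r+1)))).filter (HypAdd' m)).card) (fun _ _ => Nat.zero_le _)
      (by rw [mem_filter]; exact ⟨mem_univ _, hm⟩)
  exact_mod_cast h4

end counts

/-- There is a group with zero of each order at least two. -/
theorem exists_isMul (hr : 0 < r) : ∃ m : Fin (r+1) → Fin (r+1) → Fin (r+1), IsMul m := by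
  classical
  have : NeZero r := ⟨hr.ne'⟩
  have hfin : Finite (WithZero (Multiplicative (ZMod r))) :=
    inferInstanceAs (Finite (Option (Multiplicative (ZMod r))))
  have hcard : Nat.card (WithZero (Multiplicative (ZMod r))) = r + 1 := by
    have h1 : Nat.card (Option (Multiplicative (ZMod r))) =
      Nat.card (Multiplicative (ZMod r)) + 1 := Finite.card_option
    have h2 : Nat.card (Multiplicative (ZMod r)) = Nat.card (ZMod r) :=
      Nat.card_congr Multiplicative.toAdd
    rw [h2, Nat.card_zmod] at h1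
    exact h1
  let e0 : WithZero (Multiplicative (ZMod r)) ≃ Fin (r+1) := Finite.equivFinOfCardEq hcard
  let e : WithZero (Multiplicative (ZMod r)) ≃ Fin (r+1) := e0.trans (Equiv.swap (e0 0) 0)
  have he0 : e 0 = 0 := by simp [e]
  have he0' : e.symm 0 = 0 := by rw [Equiv.symm_apply_eq, he0]
  refine ⟨fun a b => e (e.symm a * e.symm b), ?_, ?_, ?_, ?_, ?_, ?_⟩
  · refine ⟨e 1, ?_, ?_⟩
    · intro h
      rw [← he0] at h
      exact one_ne_zero (e.injective h)
    · intro a
      simp
  · intro a b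
    simp only
    rw [mul_comm]
  · intro a b c
    simp [mul_assoc]
  · intro a
    simp only
    rw [he0', zero_mul, he0]
  · intro a b ha hb h
    simp only at h
    rw [← he0] at h
    have h1 := e.injective h
    rcases mul_eq_zero.1 h1 with h2 | h2
    · rw [Equiv.symm_apply_eq, he0] at h2
      exact ha h2
    · rw [Equiv.symm_apply_eq, he0] at h2
      exact hb h2
  · intro a ha
    refine ⟨e (e.symm a)⁻¹, fun c => ?_⟩
    have h1 : e.symm a ≠ 0 := by
      intro h
      rw [Equiv.symm_apply_eq, he0] at h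
      exact ha h
    simp [mul_inv_cancel₀ h1]

section iso

theorem Iso.refl (p : Str r) : Iso p p := ⟨Equiv.refl _, fun a b => by simp⟩

theorem Iso.symm {p q : Str r} (h : Iso p q) : Iso q p := by
  obtain ⟨e, he⟩ := h
  refine ⟨e.symm, fun a b => ?_⟩
  obtain ⟨h1, h2⟩ := he (e.symm a) (e.symm b)
  simp only [Equiv.apply_symm_apply] at h1 h2
  constructor
  · rw [← h1]; simp
  · rw [← h2]
    ext x
    simp

theorem Iso.trans {p q t : Str r} (h : Iso p q) (h' : Iso q t) : Iso p t := by
  obtain ⟨e, he⟩ := h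
  obtain ⟨e', he'⟩ := h'
  refine ⟨e.trans e', fun a b => ?_⟩
  obtain ⟨h1, h2⟩ := he a b
  obtain ⟨h3, h4⟩ := he' (e a) (e b)
  constructor
  · simp [h1, h3]
  · rw [Equiv.coe_trans, Set.image_comp, h2, h4]
    rfl

/-- The isomorphism class of `p` within `P`. -/
def cls (P : Str r → Prop) (p : Str r) : Set (Str r) := {q | P q ∧ Iso p q}

/-- All isomorphism classes. -/
def classes (P : Str r → Prop) : Set (Set (Str r)) := {C | ∃ p, P p ∧ C = cls P p}

/-- Transport of structure. -/
def act (e : Equiv.Perm (Fin (r+1))) (p : Str r) : Str r :=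
  (fun a b => e (p.1 (e.symm a) (e.symm b)), fun a b => e '' p.2 (e.symm a) (e.symm b))

theorem iso_act (e : Equiv.Perm (Fin (r+1))) (p : Str r) : Iso p (act e p) :=
  ⟨e, fun a b => by simp [act]⟩

theorem eq_act {p q : Str r} {e : Equiv.Perm (Fin (r+1))}
    (he : ∀ a b, e (p.1 a b) = q.1 (e a) (e b) ∧ e '' p.2 a b = q.2 (e a) (e b)) :
    q = act e p := by
  apply Prod.ext
  · funext a b
    have := (he (e.symm a) (e.symm b)).1
    simp only [Equiv.apply_symm_apply] at this
    simp only [act]
    exact this.symm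
  · funext a b
    have := (he (e.symm a) (e.symm b)).2
    simp only [Equiv.apply_symm_apply] at this
    simp only [act]
    exact this.symm

/-- Isomorphisms between groups with zero fix `0`. -/
theorem map_zero_of_iso {m m' : Fin (r+1) → Fin (r+1) → Fin (r+1)} (h : IsMul m)
    (h' : IsMul m') {e : Equiv.Perm (Fin (r+1))} (he : ∀ a b, e (m a b) = m' (e a) (e b)) :
    e 0 = 0 := by
  have h1 := he 0 (e.symm 0)
  rw [h.2.2.2.1, Equiv.apply_symm_apply, h'.2.1, h'.2.2.2.1] at h1
  exact h1

/-- The permutations fixing zero. -/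
def fixZero (r : ℕ) : Finset (Equiv.Perm (Fin (r+1))) := univ.filter (fun e => e 0 = 0)

theorem fixZero_card_le : (fixZero r).card ≤ (r + 1) ^ (r + 1) := by
  calc (fixZero r).card ≤ (univ : Finset (Fin (r+1) → Fin (r+1))).card := by
        apply Finset.card_le_card_of_injOn
          (fun e : Equiv.Perm (Fin (r+1)) => (⇑e : Fin (r+1) → Fin (r+1)))
        · intro e _; simp
        · intro e _ e' _ h
          exact DFunLike.coe_injective h
    _ = (r + 1) ^ (r + 1) := by simp

theorem fixZero_card_pos : 0 < (fixZero r).card := by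
  apply Finset.card_pos.2
  exact ⟨1, by simp [fixZero]⟩

open Classical in
theorem hyp_upper :
    ((univ : Finset (Str r)).filter (fun p => IsHyp p)).card ≤
      (fixZero r).card * (classes (r := r) IsHyp).ncard := by
  set S := (univ : Finset (Str r)).filter (fun p => IsHyp p) with hS
  have h1 : (classes (r := r) IsHyp) = ((S.image (cls IsHyp) : Finset (Set (Str r))) :
      Set (Set (Str r))) := by
    ext C
    simp only [classes, coe_image, Set.mem_image, mem_coe, hS, mem_filter, mem_univ, true_and,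
      Set.mem_ofPred_eq]
    constructor
    · rintro ⟨p, hp, rfl⟩; exact ⟨p, hp, rfl⟩
    · rintro ⟨p, hp, rfl⟩; exact ⟨p, hp, rfl⟩
  rw [h1, Set.ncard_coe_finset]
  apply Finset.card_le_mul_card_image
  intro C hC
  rw [mem_image] at hC
  obtain ⟨p, hp, rfl⟩ := hC
  rw [hS, mem_filter] at hp
  have hsub : (S.filter (fun q => cls IsHyp q = cls IsHyp p)) ⊆
      (fixZero r).image (fun e => act e p) := by
    intro q hq
    rw [mem_filter, hS, mem_filter] at hq
    obtain ⟨⟨-, hq1⟩, hq2⟩ := hq
    have : q ∈ cls IsHyp q := ⟨hq1, Iso.refl q⟩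
    rw [hq2] at this
    obtain ⟨-, e, he⟩ := this
    rw [mem_image]
    refine ⟨e, ?_, (eq_act he).symm⟩
    rw [fixZero, mem_filter]
    exact ⟨mem_univ _, map_zero_of_iso hp.2.1 hq1.1 (fun a b => (he a b).1)⟩
  exact le_trans (card_le_card hsub) card_image_le

end iso

section aut

theorem aut_determined {X : Type} [CommGroupWithZero X] (S : Finset Xˣ)
    (hS : Subgroup.closure (S : Set Xˣ) = ⊤) (σ : X ≃ X) (hσ : ∀ a b, σ (a * b) = σ a * σ b)
    (hfix : ∀ s ∈ S, σ (s : X) = s) (x : X) : σ x = x := by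
  let τ : X ≃* X := ⟨σ, hσ⟩
  rcases eq_or_ne x 0 with rfl | hx
  · exact map_zero τ
  · have h : (Units.map (τ : X →* X)) = MonoidHom.id Xˣ := by
      apply MonoidHom.eq_of_eqOn_dense hS
      intro s hs
      apply Units.ext
      exact hfix s hs
    have h1 := congrArg (fun φ : Xˣ →* Xˣ => ((φ (Units.mk0 x hx) : Xˣ) : X)) h
    exact h1

theorem fiber_aut (p q : Str r) (hp : IsMul p.1) :
    ((fixZero r).filter (fun e => act e p = q)).card ≤ (r + 1) ^ Nat.log 2 r := by
  classical
  let _ := gwz hp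
  obtain ⟨S, hS, hcard⟩ := exists_gen (Fin (r+1))ˣ
  have hcu : Nat.card (Fin (r+1))ˣ = r := by
    rw [Nat.card_eq_fintype_card, Fintype.card_units]
    simp
  rw [hcu] at hcard
  have hS2 : S.card ≤ Nat.log 2 r := Nat.le_log_of_pow_le (by norm_num) hcard
  have h1 : ((fixZero r).filter (fun e => act e p = q)).card ≤
      (univ : Finset (S → Fin (r+1))).card := by
    apply Finset.card_le_card_of_injOn (fun e => fun s : S => e ((s : (Fin (r+1))ˣ) : Fin (r+1)))
    · intro e _; simp
    · intro e he e' he' heq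
      rw [mem_coe, mem_filter] at he he'
      have hm : ∀ a b, e (p.1 a b) = q.1 (e a) (e b) := by
        intro a b
        rw [← he.2]
        simp [act]
      have hm' : ∀ a b, e' (p.1 a b) = q.1 (e' a) (e' b) := by
        intro a b
        rw [← he'.2]
        simp [act]
      have hσ : ∀ x, (e.trans e'.symm) x = x := by
        apply aut_determined S hS
        · intro a b
          have : e (p.1 a b) = e' (p.1 ((e.trans e'.symm) a) ((e.trans e'.symm) b)) := by
            rw [hm, hm']
            simp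
          rw [Equiv.trans_apply, Equiv.symm_apply_eq]
          exact this
        · intro s hs
          have := congrFun heq ⟨s, hs⟩
          simp only at this
          rw [Equiv.trans_apply, Equiv.symm_apply_eq]
          exact this
      apply Equiv.ext
      intro x
      have := hσ x
      rw [Equiv.trans_apply, Equiv.symm_apply_eq] at this
      exact this
  refine le_trans h1 ?_
  rw [card_univ, Fintype.card_fun, Fintype.card_coe, Fintype.card_fin]
  exact Nat.pow_le_pow_right (Nat.succ_pos r) hS2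

end aut

section quotclasses

theorem IsQuot.act {p : Str r} (h : IsQuot p) {e : Equiv.Perm (Fin (r+1))} (he : e 0 = 0) :
    IsQuot (act e p) := by
  obtain ⟨K, _, G, f, hs, h0, hf, hm, ha⟩ := h
  refine ⟨K, _, G, fun x => e (f x), e.surjective.comp hs, by simp only [h0, he], ?_, ?_, ?_⟩
  · intro x y
    rw [e.injective.eq_iff, hf]
  · intro x y
    simp [HF.act, hm]
  · intro x y
    simp only [HF.act, Equiv.symm_apply_apply, ha]
    ext z
    constructor
    · rintro ⟨w, ⟨g, hg, k, hk, rfl⟩, rfl⟩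
      exact ⟨g, hg, k, hk, rfl⟩
    · rintro ⟨g, hg, k, hk, rfl⟩
      exact ⟨_, ⟨g, hg, k, hk, rfl⟩, rfl⟩

theorem fullPre_act {p : Str r} (h : FullPre' p.1 p.2)
    {e : Equiv.Perm (Fin (r+1))} (he : e 0 = 0) :
    FullPre' (act e p).1 (act e p).2 := by
  have he' : e.symm 0 = 0 := by rw [Equiv.symm_apply_eq, he]
  have hz : ∀ (s : Set (Fin (r+1))), (0 : Fin (r+1)) ∈ e '' s ↔ (0 : Fin (r+1)) ∈ s := by
    intro s
    constructor
    · rintro ⟨x, hx, hx0⟩
      have : x = 0 := by rw [← he', ← hx0]; simp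
      rwa [this] at hx
    · intro hx
      exact ⟨0, hx, he⟩
  obtain ⟨h1, h2, h3, h4, h5, h6⟩ := h
  refine ⟨?_, ?_, ?_, ?_, ?_, ?_⟩
  · intro a b
    simp only [act]
    rw [h1]
  · intro a
    simp only [act]
    rw [he', h2]
    simp
  · intro a
    obtain ⟨b, hb, hbu⟩ := h3 (e.symm a)
    refine ⟨e b, ?_, ?_⟩
    · simp only [act]
      rw [hz]
      simpa using hb
    · intro c hc
      simp only [act] at hc
      rw [hz] at hc
      have := hbu _ hc
      rw [← this]
      simp
  · intro a b c d ha hbd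
    simp only [act] at ha hbd ⊢
    rw [hz] at hbd
    obtain ⟨x, hx, rfl⟩ := ha
    have := h4 _ _ _ _ hx hbd
    refine ⟨e.symm c, ?_, by simp⟩
    simpa using this
  · intro a b c
    simp only [act, Equiv.symm_apply_apply]
    rw [← h5]
    ext x
    constructor
    · rintro ⟨y, ⟨z, hz, rfl⟩, rfl⟩
      refine ⟨p.1 (e.symm a) z, ⟨z, hz, rfl⟩, ?_⟩
      simp
    · rintro ⟨y, ⟨z, hz, rfl⟩, rfl⟩
      refine ⟨e z, ⟨z, hz, rfl⟩, ?_⟩
      simp
  · intro u hu b hb
    simp only [act] at hb ⊢
    rw [hz] at hb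
    have hu' : ∀ a, p.1 (e.symm u) a = a := by
      intro a
      have := hu (e a)
      simp only [act, Equiv.symm_apply_apply] at this
      exact e.injective this
    rw [h6 _ hu' _ hb]
    exact Set.image_univ_of_surjective e.surjective

open Classical in
theorem full_lower :
    ((((univ : Finset (Str r)).filter (fun p => IsQuot p ∧ FullPre' p.1 p.2)).image
      (cls IsQuot)).card) * (fixZero r).card ≤
    (r + 1) ^ Nat.log 2 r *
      ((univ : Finset (Str r)).filter (fun p => IsFull p)).card := by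
  set S := (univ : Finset (Str r)).filter (fun p => IsQuot p ∧ FullPre' p.1 p.2) with hS
  have h1 : S ⊆ (univ : Finset (Str r)).filter (fun p => IsFull p) := by
    intro p hp
    rw [hS, mem_filter] at hp
    rw [mem_filter]
    refine ⟨mem_univ _, ?_, hp.2.2⟩
    obtain ⟨K, _, G, f, h⟩ := hp.2.1
    exact Rep.isMul h
  refine le_trans ?_ (Nat.mul_le_mul_left _ (card_le_card h1))
  rw [Finset.card_eq_sum_card_image (cls IsQuot) S, Finset.mul_sum, ← smul_eq_mul,
    ← Finset.sum_const]
  apply Finset.sum_le_sum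
  intro C hC
  rw [mem_image] at hC
  obtain ⟨p, hp, rfl⟩ := hC
  have hp' := hp
  rw [hS, mem_filter] at hp'
  have hpm : IsMul p.1 := by
    obtain ⟨K, _, G, f, h⟩ := hp'.2.1
    exact Rep.isMul h
  apply Finset.card_le_mul_card_image_of_maps_to (f := fun e => act e p)
  · intro e he
    rw [fixZero, mem_filter] at he
    rw [mem_filter, hS, mem_filter]
    refine ⟨⟨mem_univ _, hp'.2.1.act he.2, fullPre_act hp'.2.2 he.2⟩, ?_⟩
    ext q
    constructor
    · rintro ⟨hq, hi⟩
      exact ⟨hq, (iso_act e p).trans hi⟩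
    · rintro ⟨hq, hi⟩
      exact ⟨hq, (iso_act e p).symm.trans hi⟩
  · intro q _
    exact fiber_aut p q hpm

open Classical in
theorem small_upper (hr : 0 < r) :
    (((univ : Finset (Str r)).filter (fun p => IsQuot p ∧ ¬ FullPre' p.1 p.2)).image
      (cls IsQuot)).card ≤ 16 * r ^ 4 + 1 := by
  set S := (univ : Finset (Str r)).filter (fun p => IsQuot p ∧ ¬ FullPre' p.1 p.2) with hS
  have hfin : ∀ p ∈ S, ∃ n, n ≤ 16 * r ^ 4 ∧ ∃ (K : Type) (_ : Field K) (_ : Finite K)
      (G : Subgroup Kˣ) (f : K → Fin (r+1)), Rep K G f p ∧ Nat.card K = n := by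
    intro p hp
    rw [hS, mem_filter] at hp
    obtain ⟨-, ⟨K, hK, G, f, h⟩, hnf⟩ := hp
    have h' : Rep K G f p := h
    rcases h'.small_or_full with ⟨hf, hc⟩ | hfull
    · exact ⟨Nat.card K, hc, K, hK, hf, G, f, h', rfl⟩
    · exact absurd hfull hnf
  have hC : ∀ C ∈ S.image (cls IsQuot), ∃ p ∈ S, cls IsQuot p = C := by
    intro C hC
    rw [mem_image] at hC
    exact hC
  choose! pp hpS hpC using hC
  choose! n hn hK using hfin
  have h1 : (S.image (cls IsQuot)).card ≤ (range (16 * r ^ 4 + 1)).card := by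
    apply Finset.card_le_card_of_injOn (fun C => n (pp C))
    · intro C hC
      rw [mem_coe] at hC
      rw [mem_coe, mem_range]
      exact Nat.lt_succ_of_le (hn (pp C) (hpS C hC))
    · intro C hC C' hC' heq
      rw [mem_coe] at hC hC'
      simp only at heq
      obtain ⟨K, _, _, G, f, h, hcard⟩ := hK (pp C) (hpS C hC)
      obtain ⟨K', _, _, G', f', h', hcard'⟩ := hK (pp C') (hpS C' hC')
      have hiso : Iso (pp C) (pp C') := iso_of_card_eq hr h h' (by rw [hcard, hcard', heq])
      rw [← hpC C hC, ← hpC C' hC']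
      ext q
      constructor
      · rintro ⟨hq, hi⟩
        exact ⟨hq, hiso.symm.trans hi⟩
      · rintro ⟨hq, hi⟩
        exact ⟨hq, hiso.trans hi⟩
  rwa [card_range] at h1

open Classical in
theorem quot_upper :
    (classes (r := r) IsQuot).ncard ≤
      (((univ : Finset (Str r)).filter (fun p => IsQuot p ∧ FullPre' p.1 p.2)).image
        (cls IsQuot)).card +
      (((univ : Finset (Str r)).filter (fun p => IsQuot p ∧ ¬ FullPre' p.1 p.2)).image
        (cls IsQuot)).card := by
  have h1 : (classes (r := r) IsQuot) ⊆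
      (((((univ : Finset (Str r)).filter (fun p => IsQuot p ∧ FullPre' p.1 p.2)).image
        (cls IsQuot)) ∪
      (((univ : Finset (Str r)).filter (fun p => IsQuot p ∧ ¬ FullPre' p.1 p.2)).image
        (cls IsQuot)) : Finset (Set (Str r))) : Set (Set (Str r))) := by
    rintro C ⟨p, hp, rfl⟩
    rw [mem_coe, mem_union, mem_image, mem_image]
    by_cases hf : FullPre' p.1 p.2
    · exact Or.inl ⟨p, by rw [mem_filter]; exact ⟨mem_univ _, hp, hf⟩, rfl⟩
    · exact Or.inr ⟨p, by rw [mem_filter]; exact ⟨mem_univ _, hp, hf⟩, rfl⟩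
  refine le_trans (Set.ncard_le_ncard h1 (Finset.finite_toSet _)) ?_
  rw [Set.ncard_coe_finset]
  exact card_union_le _ _

end quotclasses

end Pool.Agent.helper53.HF
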