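import Mathlib
import Pool.Agent.helper53.HF.Classes

/-! The proportion of quotient hyperfields tends to zero. -/

set_option autoImplicit false

namespace Pool.Agent.helper53.HF

open Finset Filter

theorem main_ineq {r : ℕ} (hr : 0 < r)
    (hcond : (r : ℝ) ^ 3 * (3 / 4 : ℝ) ^ ((r : ℝ) / 24) ≤ 1 / 2) :
    ((classes (r := r) IsQuot).ncard : ℝ) / ((classes (r := r) IsHyp).ncard : ℝ) ≤
      (((r : ℝ) + 1) ^ Nat.log 2 r * (2 * r)) / (2 : ℝ) ^ ((r : ℝ) / 6) +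
      (16 * (r : ℝ) ^ 4 + 1) * (2 * ((r : ℝ) + 1) ^ (r + 1)) / (2 : ℝ) ^ ((r : ℝ) ^ 2 / 6) := by
  classical
  set F : ℝ := (((((univ : Finset (Str r)).filter (fun p => IsQuot p ∧ FullPre' p.1 p.2)).image
      (cls IsQuot)).card : ℕ) : ℝ) with hF
  set S : ℝ := (((((univ : Finset (Str r)).filter (fun p => IsQuot p ∧ ¬ FullPre' p.1 p.2)).image
      (cls IsQuot)).card : ℕ) : ℝ) with hS
  set Y : ℝ := ((((univ : Finset (Str r)).filter (fun p => IsFull p)).card : ℕ) : ℝ) with hY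
  set Xc : ℝ := ((((univ : Finset (Str r)).filter (fun p => IsHyp p)).card : ℕ) : ℝ) with hXc
  set M : ℝ := (((fixZero r).card : ℕ) : ℝ) with hM
  set H : ℝ := (((classes (r := r) IsHyp).ncard : ℕ) : ℝ) with hH
  set Q : ℝ := (((classes (r := r) IsQuot).ncard : ℕ) : ℝ) with hQ
  set a : ℝ := ((r : ℝ) + 1) ^ Nat.log 2 r with ha
  have hapos : 0 < a := by positivity
  have hMpos : 0 < M := by rw [hM]; exact_mod_cast fixZero_card_pos
  have hMle : M ≤ ((r : ℝ) + 1) ^ (r + 1) := by rw [hM]; exact_mod_cast fixZero_card_le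
  have h1 : F * M ≤ a * Y := by
    rw [hF, hM, ha, hY]
    exact_mod_cast full_lower (r := r)
  have h2 : Y * (2 : ℝ) ^ ((r : ℝ) / 6) ≤ 2 * r * Xc := labelled_ratio hcond
  have h3 : Xc ≤ M * H := by
    rw [hXc, hM, hH]
    exact_mod_cast hyp_upper (r := r)
  have h4 : S ≤ 16 * (r : ℝ) ^ 4 + 1 := by
    rw [hS]
    exact_mod_cast small_upper hr
  have h5 : Q ≤ F + S := by
    rw [hQ, hF, hS]
    exact_mod_cast quot_upper (r := r)
  have h6 : (2 : ℝ) ^ ((r : ℝ) ^ 2 / 6) / 2 ≤ Xc := by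
    obtain ⟨m, hm⟩ := exists_isMul (r := r) hr
    exact labelled_lower hcond m hm
  have hXpos : 0 < Xc := lt_of_lt_of_le (by positivity) h6
  have hHpos : 0 < H := by
    by_contra hneg
    push Not at hneg
    have : M * H ≤ 0 := mul_nonpos_of_nonneg_of_nonpos hMpos.le hneg
    linarith
  have hE1 : (0 : ℝ) < (2 : ℝ) ^ ((r : ℝ) / 6) := by positivity
  have hE2 : (0 : ℝ) < (2 : ℝ) ^ ((r : ℝ) ^ 2 / 6) := by positivity
  have hF' : F / H ≤ (a * (2 * r)) / (2 : ℝ) ^ ((r : ℝ) / 6) := by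
    rw [div_le_div_iff₀ hHpos hE1]
    have h7 : (F * M) * (2 : ℝ) ^ ((r : ℝ) / 6) ≤ (a * (2 * r) * H) * M := by
      calc (F * M) * (2 : ℝ) ^ ((r : ℝ) / 6) ≤ (a * Y) * (2 : ℝ) ^ ((r : ℝ) / 6) :=
            mul_le_mul_of_nonneg_right h1 hE1.le
        _ = a * (Y * (2 : ℝ) ^ ((r : ℝ) / 6)) := by ring
        _ ≤ a * (2 * r * Xc) := mul_le_mul_of_nonneg_left h2 hapos.le
        _ ≤ a * (2 * r * (M * H)) := by
            apply mul_le_mul_of_nonneg_left _ hapos.le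
            apply mul_le_mul_of_nonneg_left h3 (by positivity)
        _ = _ := by ring
    have h8 : (F * (2 : ℝ) ^ ((r : ℝ) / 6)) * M ≤ (a * (2 * r) * H) * M := by
      calc (F * (2 : ℝ) ^ ((r : ℝ) / 6)) * M = (F * M) * (2 : ℝ) ^ ((r : ℝ) / 6) := by ring
        _ ≤ _ := h7
    exact le_of_mul_le_mul_right h8 hMpos
  have hS' : S / H ≤ (16 * (r : ℝ) ^ 4 + 1) * (2 * ((r : ℝ) + 1) ^ (r + 1)) /
      (2 : ℝ) ^ ((r : ℝ) ^ 2 / 6) := by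
    rw [div_le_div_iff₀ hHpos hE2]
    have h9 : (2 : ℝ) ^ ((r : ℝ) ^ 2 / 6) ≤ 2 * ((r : ℝ) + 1) ^ (r + 1) * H := by
      have : M * H ≤ ((r : ℝ) + 1) ^ (r + 1) * H := mul_le_mul_of_nonneg_right hMle hHpos.le
      linarith
    calc S * (2 : ℝ) ^ ((r : ℝ) ^ 2 / 6)
        ≤ (16 * (r : ℝ) ^ 4 + 1) * (2 : ℝ) ^ ((r : ℝ) ^ 2 / 6) :=
          mul_le_mul_of_nonneg_right h4 hE2.le
      _ ≤ (16 * (r : ℝ) ^ 4 + 1) * (2 * ((r : ℝ) + 1) ^ (r + 1) * H) :=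
          mul_le_mul_of_nonneg_left h9 (by positivity)
      _ = _ := by ring
  calc Q / H ≤ (F + S) / H := by
        exact div_le_div_of_nonneg_right h5 hHpos.le
    _ = F / H + S / H := add_div _ _ _
    _ ≤ _ := add_le_add hF' hS'

theorem log_bound : ∀ L : ℕ, 11 ≤ L → 12 * (L + 1) ^ 2 + 12 ≤ 2 ^ L := by
  intro L hL
  induction L, hL using Nat.le_induction with
  | base => norm_num
  | succ n hn ih =>
    have h : 12 * (n + 1 + 1) ^ 2 + 12 ≤ 2 * (12 * (n + 1) ^ 2 + 12) := by nlinarith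
    calc 12 * (n + 1 + 1) ^ 2 + 12 ≤ 2 * (12 * (n + 1) ^ 2 + 12) := h
      _ ≤ 2 * 2 ^ n := Nat.mul_le_mul_left _ ih
      _ = 2 ^ (n + 1) := by ring

theorem rhs_bound {r : ℕ} (hr : 2048 ≤ r) :
      (((r : ℝ) + 1) ^ Nat.log 2 r * (2 * r)) / (2 : ℝ) ^ ((r : ℝ) / 6) +
      (16 * (r : ℝ) ^ 4 + 1) * (2 * ((r : ℝ) + 1) ^ (r + 1)) / (2 : ℝ) ^ ((r : ℝ) ^ 2 / 6) ≤
      2 * (2 : ℝ) ^ (-(r : ℝ) / 12) := by
  set L := Nat.log 2 r with hL
  have hr0 : r ≠ 0 := by omega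
  have hL11 : 11 ≤ L := by
    rw [hL]
    exact Nat.le_log_of_pow_le (by norm_num) (by norm_num; exact hr)
  have hb := log_bound L hL11
  have hLr : 2 ^ L ≤ r := Nat.pow_log_le_self 2 hr0
  have hrL : r + 1 ≤ 2 ^ (L + 1) := Nat.lt_pow_succ_log_self (by norm_num) r
  have hrR : (2048 : ℝ) ≤ (r : ℝ) := by exact_mod_cast hr
  have hb1 : 12 * ((L : ℝ) + 1) ^ 2 + 12 ≤ (r : ℝ) := by
    have : 12 * (L + 1) ^ 2 + 12 ≤ r := le_trans hb hLr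
    exact_mod_cast this
  have hL11R : (11 : ℝ) ≤ (L : ℝ) := by exact_mod_cast hL11
  have hb2 : 24 * ((L : ℝ) + 1) ≤ (r : ℝ) := by nlinarith
  have hrLR : (r : ℝ) + 1 ≤ (2 : ℝ) ^ ((L : ℝ) + 1) := by
    have h1 : ((r + 1 : ℕ) : ℝ) ≤ ((2 ^ (L + 1) : ℕ) : ℝ) := by exact_mod_cast hrL
    push_cast at h1
    have h2 : (2 : ℝ) ^ ((L : ℝ) + 1) = (2 : ℝ) ^ (L + 1) := by
      rw [← Real.rpow_natCast 2 (L + 1)]
      push_cast
      rfl
    rw [h2]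
    exact h1
  have hpos1 : (0 : ℝ) ≤ (r : ℝ) + 1 := by positivity
  have hpow : ∀ k : ℕ, ((r : ℝ) + 1) ^ k ≤ (2 : ℝ) ^ (((L : ℝ) + 1) * k) := by
    intro k
    calc ((r : ℝ) + 1) ^ k ≤ ((2 : ℝ) ^ ((L : ℝ) + 1)) ^ k := pow_le_pow_left₀ hpos1 hrLR k
      _ = (2 : ℝ) ^ (((L : ℝ) + 1) * k) := by
          rw [← Real.rpow_natCast, ← Real.rpow_mul (by norm_num)]
  have hr1 : (r : ℝ) ≤ (2 : ℝ) ^ ((L : ℝ) + 1) := by linarith
  -- first term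
  have t1 : (((r : ℝ) + 1) ^ L * (2 * r)) / (2 : ℝ) ^ ((r : ℝ) / 6) ≤
      (2 : ℝ) ^ (-(r : ℝ) / 12) := by
    rw [div_le_iff₀ (by positivity), ← Real.rpow_add (by norm_num)]
    have h1 : ((r : ℝ) + 1) ^ L * (2 * r) ≤
        (2 : ℝ) ^ (((L : ℝ) + 1) * L) * (2 ^ (1 : ℝ) * (2 : ℝ) ^ ((L : ℝ) + 1)) := by
      apply mul_le_mul (hpow L) _ (by positivity) (by positivity)
      rw [Real.rpow_one]
      linarith
    refine le_trans h1 ?_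
    rw [← Real.rpow_add (by norm_num), ← Real.rpow_add (by norm_num)]
    apply Real.rpow_le_rpow_of_exponent_le (by norm_num : (1 : ℝ) ≤ 2)
    nlinarith
  have t2 : (16 * (r : ℝ) ^ 4 + 1) * (2 * ((r : ℝ) + 1) ^ (r + 1)) /
      (2 : ℝ) ^ ((r : ℝ) ^ 2 / 6) ≤ (2 : ℝ) ^ (-(r : ℝ) / 12) := by
    rw [div_le_iff₀ (by positivity), ← Real.rpow_add (by norm_num)]
    have h1 : (16 * (r : ℝ) ^ 4 + 1) ≤ (2 : ℝ) ^ (5 : ℝ) * (2 : ℝ) ^ (((L : ℝ) + 1) * (4 : ℕ)) := by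
      have h2 : 16 * (r : ℝ) ^ 4 + 1 ≤ 32 * ((r : ℝ) + 1) ^ 4 := by nlinarith [sq_nonneg (r : ℝ)]
      have h3 : (2 : ℝ) ^ (5 : ℝ) = 32 := by norm_num
      rw [h3]
      refine le_trans h2 ?_
      exact mul_le_mul_of_nonneg_left (hpow 4) (by norm_num)
    have h4 : 2 * ((r : ℝ) + 1) ^ (r + 1) ≤
        (2 : ℝ) ^ (1 : ℝ) * (2 : ℝ) ^ (((L : ℝ) + 1) * ((r + 1 : ℕ) : ℝ)) := by
      rw [Real.rpow_one]
      exact mul_le_mul_of_nonneg_left (hpow (r + 1)) (by norm_num)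
    refine le_trans (mul_le_mul h1 h4 (by positivity) (by positivity)) ?_
    rw [← Real.rpow_add (by norm_num), ← Real.rpow_add (by norm_num),
      ← Real.rpow_add (by norm_num)]
    apply Real.rpow_le_rpow_of_exponent_le (by norm_num : (1 : ℝ) ≤ 2)
    push_cast
    nlinarith
  linarith

theorem eventually_cond :
    ∀ᶠ r : ℕ in atTop, (r : ℝ) ^ 3 * (3 / 4 : ℝ) ^ ((r : ℝ) / 24) ≤ 1 / 2 := by
  have hb : |((3 / 4 : ℝ) ^ ((1 : ℝ) / 24))| < 1 := by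
    rw [abs_of_pos (by positivity)]
    exact Real.rpow_lt_one (by norm_num) (by norm_num) (by norm_num)
  have h := tendsto_pow_const_mul_const_pow_of_abs_lt_one 3 hb
  have h2 := h.eventually (ge_mem_nhds (show (0 : ℝ) < 1 / 2 by norm_num))
  filter_upwards [h2] with r hr
  have : (3 / 4 : ℝ) ^ ((r : ℝ) / 24) = ((3 / 4 : ℝ) ^ ((1 : ℝ) / 24)) ^ r := by
    rw [← Real.rpow_natCast, ← Real.rpow_mul (by norm_num)]
    congr 1
    ring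
  rw [this]
  exact hr

theorem tendsto_main :
    Tendsto (fun r : ℕ => ((classes (r := r) IsQuot).ncard : ℝ) /
      ((classes (r := r) IsHyp).ncard : ℝ)) atTop (nhds 0) := by
  have hlim : Tendsto (fun r : ℕ => 2 * (2 : ℝ) ^ (-(r : ℝ) / 12)) atTop (nhds 0) := by
    have hb1 : (0 : ℝ) ≤ (2 : ℝ) ^ (-(1 : ℝ) / 12) := by positivity
    have hb2 : (2 : ℝ) ^ (-(1 : ℝ) / 12) < 1 :=
      Real.rpow_lt_one_of_one_lt_of_neg (by norm_num) (by norm_num)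
    have h := (tendsto_pow_atTop_nhds_zero_of_lt_one hb1 hb2).const_mul 2
    rw [mul_zero] at h
    refine h.congr (fun r => ?_)
    rw [← Real.rpow_natCast, ← Real.rpow_mul (by norm_num)]
    congr 2
    ring
  refine tendsto_of_tendsto_of_tendsto_of_le_of_le' tendsto_const_nhds hlim ?_ ?_
  · exact Eventually.of_forall (fun r => by positivity)
  · filter_upwards [eventually_cond, eventually_ge_atTop 2048] with r h1 h2
    exact le_trans (main_ineq (by omega) h1) (rhs_bound h2)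

/-- The hyperfield axioms as one flat conjunction. -/
def IsHypFlat {r : ℕ} (p : Str r) : Prop :=
  (∃ u : Fin (r+1), u ≠ 0 ∧ ∀ a, p.1 u a = a) ∧
    (∀ a b, p.1 a b = p.1 b a) ∧
    (∀ a b c, p.1 (p.1 a b) c = p.1 a (p.1 b c)) ∧
    (∀ a, p.1 0 a = 0) ∧
    (∀ a b, a ≠ 0 → b ≠ 0 → p.1 a b ≠ 0) ∧
    (∀ a, a ≠ 0 → ∃ b, ∀ c, p.1 (p.1 a b) c = c) ∧
    (∀ a b, (p.2 a b).Nonempty) ∧
    (∀ a b, p.2 a b = p.2 b a) ∧
    (∀ a b c, (⋃ x ∈ p.2 a b, p.2 x c) = ⋃ x ∈ p.2 b c, p.2 a x) ∧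
    (∀ a, p.2 0 a = {a}) ∧
    (∀ a, ∃! b, (0 : Fin (r+1)) ∈ p.2 a b) ∧
    (∀ a b c d, a ∈ p.2 b c → (0 : Fin (r+1)) ∈ p.2 b d → c ∈ p.2 a d) ∧
    (∀ a b c, (fun x => p.1 a x) '' p.2 b c = p.2 (p.1 a b) (p.1 a c))

theorem isHyp_eq_flat {r : ℕ} : (IsHyp : Str r → Prop) = IsHypFlat := by
  funext p
  apply propext
  constructor
  · rintro ⟨⟨h1, h2, h3, h4, h5, h6⟩, h7⟩
    exact ⟨h1, h2, h3, h4, h5, h6, h7⟩
  · rintro ⟨h1, h2, h3, h4, h5, h6, h7⟩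
    exact ⟨⟨h1, h2, h3, h4, h5, h6⟩, h7⟩

theorem tendsto_flat :
    Tendsto (fun r : ℕ => ((classes (r := r) IsQuot).ncard : ℝ) /
      ((classes (r := r) IsHypFlat).ncard : ℝ)) atTop (nhds 0) := by
  have h := tendsto_main
  simp only [isHyp_eq_flat] at h
  exact h

end Pool.Agent.helper53.HF
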