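import Pool.Agent.helper19.HF.SpecE
import Pool.Agent.helper92.HF.LRZ

/-!
# Row hw:LRU (MP_bf63dc_nt): the left-right bound from upper bounds for the densities
-/

set_option autoImplicit false

namespace Pool.Agent.HF

open Finset

theorem LRU (h1 : APZ_stmt) (h2 : LAZ_stmt) : LRU_stmt := by
  classical
  intro a b ha hb e he he1
  obtain ⟨τ, κ, hτ, hκ, p₁, hLRA⟩ := h2 a b ha hb (e / 4) (by positivity) (by linarith)
  -- the numbers
  obtain ⟨A, hA⟩ : ∃ A : ℕ, A = a + b := ⟨_, rfl⟩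
  have hA2 : 2 ≤ A := by omega
  have hA0 : (0 : ℝ) < A := by exact_mod_cast (by omega : 0 < A)
  obtain ⟨m, hm⟩ : ∃ m : ℝ, m = 2 * (A : ℝ) + 1 := ⟨_, rfl⟩
  have hm0 : 0 < m := by rw [hm]; positivity
  obtain ⟨κ₃, hκ₃⟩ : ∃ κ₃ : ℝ, κ₃ = κ / (2 * m) := ⟨_, rfl⟩
  have hκ₃0 : 0 < κ₃ := by rw [hκ₃]; positivity
  obtain ⟨Q, hQ, hAPZ⟩ := h1 a b ha hb (e / 4) (τ * e * κ₃ ^ 2 / (128 * (A : ℝ) ^ 2)) (by positivity) (by positivity)
  refine ⟨τ * e * κ₃ * (e / 16) ^ 2 / 32, Q, by positivity, hQ, fun l₀ => ?_⟩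
  obtain ⟨p, hp, hpp⟩ := Nat.exists_infinite_primes (max p₁ l₀)
  refine ⟨A * (p * Q) + ⌈64 * ((p : ℝ) * Q) / e⌉₊ + ⌈32 * ((p : ℝ) * Q) / (τ * e)⌉₊ + 1, fun R hR P γ hγ hγ1 hH1 f f' hf hf' hH3 hs hs' => ?_⟩
  by_contra hcon
  rw [not_le] at hcon
  have hR1 : 1 ≤ R := by omega
  have hR0 : (0 : ℝ) < R := by exact_mod_cast hR1
  have hApQ : A * (p * Q) ≤ R := by omega
  have hpQ : p * Q ≤ R := le_trans (Nat.le_mul_of_pos_left _ (by omega)) hApQ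
  have r2 : 64 * ((p : ℝ) * Q) ≤ e * R := by
    have h3 : (⌈64 * ((p : ℝ) * Q) / e⌉₊ : ℝ) ≤ R := by exact_mod_cast (by omega : ⌈64 * ((p : ℝ) * Q) / e⌉₊ ≤ R)
    have h4 := (Nat.le_ceil _).trans h3
    rw [div_le_iff₀ he] at h4
    linarith
  have r3 : 32 * ((p : ℝ) * Q) ≤ τ * e * R := by
    have h3 : (⌈32 * ((p : ℝ) * Q) / (τ * e)⌉₊ : ℝ) ≤ R := by exact_mod_cast (by omega : ⌈32 * ((p : ℝ) * Q) / (τ * e)⌉₊ ≤ R)
    have h4 := (Nat.le_ceil _).trans h3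
    rw [div_le_iff₀ (by positivity)] at h4
    linarith
  have hp0 : (0 : ℝ) < p := by exact_mod_cast hpp.pos
  have hS := LRB_S f R (e / 16) (by positivity) hf
  have hS' := LRB_S f' R (e / 16) (by positivity) hf'
  obtain ⟨S, hSdef⟩ : ∃ S : Finset ℕ, S = {u ∈ range R | e / 16 ≤ f u} := ⟨_, rfl⟩
  obtain ⟨S', hSdef'⟩ : ∃ S' : Finset ℕ, S' = {u ∈ range R | e / 16 ≤ f' u} := ⟨_, rfl⟩
  rw [← hSdef] at hS
  rw [← hSdef'] at hS'
  have hSR : S ⊆ range R := by rw [hSdef]; exact Finset.filter_subset _ _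
  have hSR' : S' ⊆ range R := by rw [hSdef']; exact Finset.filter_subset _ _
  have heR : 0 < e * R := by positivity
  have hSσ : e / 4 * R ≤ (#S : ℝ) := by linarith
  have hSσ' : e / 4 * R ≤ (#S' : ℝ) := by linarith
  obtain ⟨q, hq1, hqQ, hper⟩ := hAPZ p R S S' hR1 hpQ hSR hSR' hSσ
  have hqQ' : (p : ℝ) * q ≤ (p : ℝ) * Q := mul_le_mul_of_nonneg_left (by exact_mod_cast hqQ) hp0.le
  obtain ⟨Ω, hΩ, hΩc, hΩd⟩ := hLRA p hpp ((le_max_left _ _).trans hp) q R S S' (γ + e / 2) hq1 hR1 (by linarith) hSR hSR' hSσ hSσ' (by linarith) (by linarith)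
  -- sizes
  have hApqN : A * (p * q) ≤ R := (Nat.mul_le_mul_left A (Nat.mul_le_mul_left p hqQ)).trans hApQ
  have hApq : (A : ℤ) * (p * q) ≤ R := by exact_mod_cast hApqN
  have hpqN : p * q ≤ R := (Nat.mul_le_mul_left p hqQ).trans hpQ
  have hpq : (p : ℤ) * q ≤ R := by exact_mod_cast hpqN
  have hpq0 : (0 : ℤ) ≤ (p : ℤ) * q := by positivity
  have hRZ : (1 : ℤ) ≤ R := by exact_mod_cast hR1
  have haR : (R : ℤ) ≤ a * R := by
    have : (1 : ℤ) ≤ a := by exact_mod_cast ha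
    nlinarith
  have hbR : (R : ℤ) ≤ b * R := by
    have : (1 : ℤ) ≤ b := by exact_mod_cast hb
    nlinarith
  obtain ⟨I, hI⟩ : ∃ I : Finset ℤ, I = Icc (-(b * R : ℤ)) (a * R + p * q) := ⟨_, rfl⟩
  -- first bad set
  have hBA := LRZ_A P (τ * e * κ₃ * (e / 16) ^ 2 / 32) (e / 16) κ₃ a b R f f' I hR1 hκ₃0 (by positivity) hf hf' hH3
  rw [← hSdef, ← hSdef'] at hBA
  have eA : τ * e * κ₃ * (e / 16) ^ 2 / 32 / (κ₃ * (e / 16) ^ 2) = τ * e / 32 := by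
    field_simp
  rw [eA] at hBA
  -- second bad set
  have hTsq := LRZ_Tsq (fun d : ℤ => (ctz a b S S' d : ℝ)) (p * q) A I (Icc (-(2 * (a + b) * R : ℤ)) (2 * (a + b) * R)) _ hper (by
    intro i hi x hx
    rw [hI, Finset.mem_Icc] at hx
    have hi1 : (i : ℤ) + 1 ≤ A := by exact_mod_cast hi
    have hi0 : (0 : ℤ) ≤ i := by positivity
    have g1 : (p : ℤ) * q * ((i : ℤ) + 1) ≤ R := by nlinarith
    have g2 : (p : ℤ) * q * (i : ℤ) ≤ R := by nlinarith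
    have g3 : (0 : ℤ) ≤ (p : ℤ) * q * ((i : ℤ) + 1) := by positivity
    have g4 : (0 : ℤ) ≤ (p : ℤ) * q * (i : ℤ) := by positivity
    rw [Finset.mem_Icc, Finset.mem_Icc]
    constructor
    · constructor <;> nlinarith [hx.1, hx.2]
    · constructor <;> nlinarith [hx.1, hx.2])
  have hBB := LRZ_cheb κ₃ (4 * (A : ℝ) ^ 2 * (τ * e * κ₃ ^ 2 / (128 * (A : ℝ) ^ 2))) R (LRZ_T (fun d : ℤ => (ctz a b S S' d : ℝ)) (p * q) A) I hR1 hκ₃0 (by
    rw [mul_assoc]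
    exact hTsq)
  have eB : 4 * (A : ℝ) ^ 2 * (τ * e * κ₃ ^ 2 / (128 * (A : ℝ) ^ 2)) / κ₃ ^ 2 = τ * e / 32 := by
    field_simp
    norm_num
  rw [eB] at hBB
  have hcardJ : (#(Icc (-(a + b : ℤ)) (a + b)) : ℝ) = m := by
    rw [Int.card_Icc, hm, hA]
    have : ((a + b : ℤ) + 1 - -(a + b : ℤ)).toNat = 2 * (a + b) + 1 := by omega
    rw [this]
    push_cast
    ring
  have hP := LRB_pairs Ω ({δ ∈ I | ¬ P δ ∧ κ₃ * R ≤ (ctz a b S S' δ : ℝ)} ∪ {δ ∈ I | κ₃ * R ≤ LRZ_T (fun d : ℤ => (ctz a b S S' d : ℝ)) (p * q) A δ}) p q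
    (fun w d => κ * R ≤ ∑ j ∈ Icc (-(a + b : ℤ)) (a + b), (ctz a b S S' (w + q * (d : ℕ) + q * p * j) : ℝ) ∧ ¬ P (w + q * (d : ℕ))) (by
      intro w hw d hd hPd
      have hw1 := Finset.mem_Ico.1 (hΩ hw)
      have hd1 := Finset.mem_range.1 hd
      have hq0 : (0 : ℤ) ≤ q * (d : ℕ) := by positivity
      have hqd : (q : ℤ) * (d : ℕ) ≤ q * p := mul_le_mul_of_nonneg_left (by exact_mod_cast hd1.le) (by positivity)
      have hwI : w + q * (d : ℕ) ∈ I := by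
        rw [hI, Finset.mem_Icc]
        constructor
        · linarith [hw1.1]
        · have := mul_comm (q : ℤ) (p : ℤ)
          linarith [hw1.2]
      rw [Finset.mem_union]
      by_cases hc : κ₃ * R ≤ (ctz a b S S' (w + q * (d : ℕ)) : ℝ)
      · exact Or.inl (Finset.mem_filter.2 ⟨hwI, hPd.2, hc⟩)
      · rw [not_le] at hc
        refine Or.inr (Finset.mem_filter.2 ⟨hwI, ?_⟩)
        have h5 := hPd.1
        have h6 : ∀ j ∈ Icc (-(a + b : ℤ)) (a + b), (ctz a b S S' (w + q * (d : ℕ) + q * p * j) : ℝ) ≤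
            κ₃ * R + LRZ_T (fun d : ℤ => (ctz a b S S' d : ℝ)) (p * q) A (w + q * (d : ℕ)) := by
          intro j hj
          have h7 := LRZ_tel (fun d : ℤ => (ctz a b S S' d : ℝ)) (w + q * (d : ℕ)) (p * q) A j (by
            rw [hA]
            push_cast
            exact hj)
          have h8 := (le_abs_self _).trans h7
          rw [mul_comm (q : ℤ) (p : ℤ)]
          beta_reduce at h8
          linarith
        have h9 := h5.trans (Finset.sum_le_sum h6)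
        rw [Finset.sum_const, nsmul_eq_mul, hcardJ] at h9
        have h10 : m * (κ₃ * R) = κ * R / 2 := by
          rw [hκ₃]
          field_simp
        have h11 : m * (κ₃ * R) ≤ m * LRZ_T (fun d : ℤ => (ctz a b S S' d : ℝ)) (p * q) A (w + q * (d : ℕ)) := by
          rw [mul_add, h10] at h9
          rw [h10]
          linarith
        exact le_of_mul_le_mul_left h11 hm0)
  have hcard : (#({δ ∈ I | ¬ P δ ∧ κ₃ * R ≤ (ctz a b S S' δ : ℝ)} ∪ {δ ∈ I | κ₃ * R ≤ LRZ_T (fun d : ℤ => (ctz a b S S' d : ℝ)) (p * q) A δ}) : ℝ) ≤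
      τ * e / 32 * R + τ * e / 32 * R := by
    have h5 := Finset.card_union_le {δ ∈ I | ¬ P δ ∧ κ₃ * R ≤ (ctz a b S S' δ : ℝ)} {δ ∈ I | κ₃ * R ≤ LRZ_T (fun d : ℤ => (ctz a b S S' d : ℝ)) (p * q) A δ}
    have h6 : (#({δ ∈ I | ¬ P δ ∧ κ₃ * R ≤ (ctz a b S S' δ : ℝ)} ∪ {δ ∈ I | κ₃ * R ≤ LRZ_T (fun d : ℤ => (ctz a b S S' d : ℝ)) (p * q) A δ}) : ℝ) ≤
      (#{δ ∈ I | ¬ P δ ∧ κ₃ * R ≤ (ctz a b S S' δ : ℝ)} : ℝ) + #{δ ∈ I | κ₃ * R ≤ LRZ_T (fun d : ℤ => (ctz a b S S' d : ℝ)) (p * q) A δ} := by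
      exact_mod_cast h5
    exact h6.trans (add_le_add hBA hBB)
  have hcount : ∀ w ∈ Ω, (γ + e / 4) * p ≤ (#{d ∈ range p | P (w + q * (d : ℕ))} : ℝ) +
      #{d ∈ range p | κ * R ≤ ∑ j ∈ Icc (-(a + b : ℤ)) (a + b), (ctz a b S S' (w + q * (d : ℕ) + q * p * j) : ℝ) ∧ ¬ P (w + q * (d : ℕ))} := by
    intro w hw
    have h5 := hΩd w hw
    have h6 : #{d ∈ range p | κ * R ≤ ∑ j ∈ Icc (-(a + b : ℤ)) (a + b), (ctz a b S S' (w + q * (d : ℕ) + q * p * j) : ℝ)} ≤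
        #{d ∈ range p | P (w + q * (d : ℕ))} + #{d ∈ range p | κ * R ≤ ∑ j ∈ Icc (-(a + b : ℤ)) (a + b), (ctz a b S S' (w + q * (d : ℕ) + q * p * j) : ℝ) ∧ ¬ P (w + q * (d : ℕ))} := by
      refine (Finset.card_le_card ?_).trans (Finset.card_union_le _ _)
      intro d hd
      have hd1 := Finset.mem_filter.1 hd
      rw [Finset.mem_union]
      by_cases hb : P (w + q * (d : ℕ))
      · exact Or.inl (Finset.mem_filter.2 ⟨hd1.1, hb⟩)
      · exact Or.inr (Finset.mem_filter.2 ⟨hd1.1, hd1.2, hb⟩)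
    have h7 : (#{d ∈ range p | κ * R ≤ ∑ j ∈ Icc (-(a + b : ℤ)) (a + b), (ctz a b S S' (w + q * (d : ℕ) + q * p * j) : ℝ)} : ℝ) ≤
        (#{d ∈ range p | P (w + q * (d : ℕ))} : ℝ) + #{d ∈ range p | κ * R ≤ ∑ j ∈ Icc (-(a + b : ℤ)) (a + b), (ctz a b S S' (w + q * (d : ℕ) + q * p * j) : ℝ) ∧ ¬ P (w + q * (d : ℕ))} := by
      exact_mod_cast h6
    refine le_trans ?_ (h5.trans h7)
    refine mul_le_mul_of_nonneg_right ?_ hp0.le
    linarith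
  have hsum1 : (#Ω : ℝ) * ((γ + e / 4) * p) ≤ ∑ w ∈ Ω, (#{d ∈ range p | P (w + q * (d : ℕ))} : ℝ) + p * (τ * e / 32 * R + τ * e / 32 * R) := by
    have h5 := Finset.sum_le_sum hcount
    rw [Finset.sum_const, nsmul_eq_mul, Finset.sum_add_distrib] at h5
    have h6 := hP.trans (mul_le_mul_of_nonneg_left hcard hp0.le)
    beta_reduce at h6
    linarith
  have hup : ∑ w ∈ Ω, (#{d ∈ range p | P (w + q * (d : ℕ))} : ℝ) ≤ (#Ω : ℝ) * (γ * p) := by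
    rw [← nsmul_eq_mul, ← Finset.sum_const]
    exact Finset.sum_le_sum fun w _ => hH1 q hq1 hqQ p ((le_max_right _ _).trans hp) w
  have hfin : p * ((#Ω : ℝ) * (e / 4)) ≤ p * (τ * e / 16 * R) := by
    have e1 : (#Ω : ℝ) * ((γ + e / 4) * p) = (#Ω : ℝ) * (γ * p) + p * ((#Ω : ℝ) * (e / 4)) := by ring
    have e2 : (p : ℝ) * (τ * e / 32 * R + τ * e / 32 * R) = p * (τ * e / 16 * R) := by ring
    rw [e1, e2] at hsum1
    linarith
  have hfin2 := le_of_mul_le_mul_left hfin hp0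
  have h9 : τ * R * (e / 4) ≤ #Ω * (e / 4) := mul_le_mul_of_nonneg_right hΩc (by positivity)
  have h10 : 0 < τ * R * e := by positivity
  nlinarith

end Pool.Agent.HF
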